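import Pool.Agent.Helper481.RHTrans

/-! Determinants of tuples of vectors and Steiner symmetrisation. -/

set_option autoImplicit false
open MeasureTheory Set Module Filter Topology Metric TopologicalSpace
open scoped ENNReal RealInnerProductSpace
open Pool.Agent.Helper481.RH

namespace Pool.Agent.V11188.GM

variable {m : ℕ}

/-- the space `ℝ^(m+1)` -/
abbrev Ed (m : ℕ) := EuclideanSpace ℝ (Fin (m + 1))

/-- the determinant of a tuple of vectors -/
noncomputable def dt (v : Fin (m + 1) → Ed m) : ℝ := (EuclideanSpace.basisFun (Fin (m + 1)) ℝ).toBasis.det v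

/-- the same in coordinates -/
noncomputable def dtc (v : Fin (m + 1) → ℝ × (Fin m → ℝ)) : ℝ :=
  Matrix.det (Matrix.of fun i j => (Fin.cons (v j).1 (v j).2 : Fin (m + 1) → ℝ) i)

/-- cofactors -/
noncomputable def cof (y : Fin (m + 1) → (Fin m → ℝ)) (j : Fin (m + 1)) : ℝ :=
  (-1) ^ (j : ℕ) * Matrix.det (Matrix.of fun i k => y (Fin.succAbove j k) i)

lemma dtc_eq (v : Fin (m + 1) → ℝ × (Fin m → ℝ)) :
    dtc v = ∑ j, (v j).1 * cof (fun k => (v k).2) j := by
  unfold dtc
  rw [Matrix.det_succ_row_zero]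
  refine Finset.sum_congr rfl fun j _ => ?_
  simp only [Matrix.of_apply, Fin.cons_zero, cof]
  have : (Matrix.of fun i j => (Fin.cons (v j).1 (v j).2 : Fin (m + 1) → ℝ) i).submatrix Fin.succ
      j.succAbove = Matrix.of fun i k => (v (Fin.succAbove j k)).2 i := by
    ext i k
    simp
  rw [this]
  ring

lemma dt_eq_basis (b : OrthonormalBasis (Fin (m + 1)) ℝ (Ed m)) (v : Fin (m + 1) → Ed m) :
    |dt v| = |b.toBasis.det v| := by
  unfold dt
  have h1 : (EuclideanSpace.basisFun (Fin (m + 1)) ℝ).toBasis.det v =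
      (EuclideanSpace.basisFun (Fin (m + 1)) ℝ).toBasis.det b.toBasis * b.toBasis.det v := by
    have := (EuclideanSpace.basisFun (Fin (m + 1)) ℝ).toBasis.det.eq_smul_basis_det b.toBasis
    have h2 := DFunLike.congr_fun this v
    rw [h2]
    rfl
  rw [h1, abs_mul]
  have h2 := (EuclideanSpace.basisFun (Fin (m + 1)) ℝ).det_to_matrix_orthonormalBasis_real b
  have h3 : |(EuclideanSpace.basisFun (Fin (m + 1)) ℝ).toBasis.det b.toBasis| = 1 := by
    rw [b.coe_toBasis]
    rcases h2 with h2 | h2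
    · have : (EuclideanSpace.basisFun (Fin (m + 1)) ℝ).toBasis.det b = 1 := h2
      rw [this, abs_one]
    · have : (EuclideanSpace.basisFun (Fin (m + 1)) ℝ).toBasis.det b = -1 := h2
      rw [this, abs_neg, abs_one]
  rw [h3, one_mul]

lemma det_basis_coord (b : OrthonormalBasis (Fin (m + 1)) ℝ (Ed m)) (v : Fin (m + 1) → Ed m) :
    b.toBasis.det v = dtc (fun i => coord b (v i)) := by
  rw [Basis.det_apply, dtc]
  congr 1
  ext i j
  rw [Basis.toMatrix_apply, Matrix.of_apply]
  refine Fin.cases ?_ (fun k => ?_) i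
  · rw [Fin.cons_zero, coord_fst]
    simp [b.repr_apply_apply]
  · rw [Fin.cons_succ, coord_snd]
    simp [b.repr_apply_apply]

lemma dt_coord (b : OrthonormalBasis (Fin (m + 1)) ℝ (Ed m)) (v : Fin (m + 1) → Ed m) :
    |dt v| = |dtc (fun i => coord b (v i))| := by
  rw [dt_eq_basis b, det_basis_coord]

/-- all determinants of tuples of points of `K` are bounded by `A` -/
def PropD (K : Set (Ed m)) (A : ℝ) : Prop := ∀ v : Fin (m + 1) → Ed m, (∀ i, v i ∈ K) → |dt v| ≤ A

/-- the same in coordinates -/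
def PropC (K : Set (ℝ × (Fin m → ℝ))) (A : ℝ) : Prop :=
  ∀ v : Fin (m + 1) → ℝ × (Fin m → ℝ), (∀ i, v i ∈ K) → |dtc v| ≤ A

lemma propD_iff (b : OrthonormalBasis (Fin (m + 1)) ℝ (Ed m)) (K : Set (Ed m)) (A : ℝ) :
    PropD K A ↔ PropC (coord b '' K) A := by
  constructor
  · intro h v hv
    choose w hw hwv using hv
    have h1 := h w hw
    rw [dt_coord b] at h1
    have : (fun i => coord b (w i)) = v := funext hwv
    rwa [this] at h1
  · intro h v hv
    rw [dt_coord b]
    exact h _ fun i => ⟨v i, hv i, rfl⟩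

/-- Steiner symmetrisation does not increase the determinants -/
lemma propC_St {K : Set (ℝ × (Fin m → ℝ))} {A : ℝ} (h : PropC K A) : PropC (St K) A := by
  intro v hv
  choose a b ha hb hab using hv
  have h1 := h (fun i => (a i, (v i).2)) ha
  have h2 := h (fun i => (b i, (v i).2)) hb
  have h3 : dtc v = (dtc (fun i => (a i, (v i).2)) - dtc (fun i => (b i, (v i).2))) / 2 := by
    rw [dtc_eq, dtc_eq, dtc_eq, ← Finset.sum_sub_distrib, Finset.sum_div]
    refine Finset.sum_congr rfl fun j _ => ?_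
    rw [hab j]; ring
  rw [h3]
  rw [abs_le] at h1 h2 ⊢
  constructor <;> linarith [h1.1, h1.2, h2.1, h2.2]

lemma continuous_dt : Continuous (dt (m := m)) := by
  unfold dt
  simp only [Basis.det_apply]
  apply Continuous.matrix_det
  have : (EuclideanSpace.basisFun (Fin (m + 1)) ℝ).toBasis.toMatrix =
      fun v : Fin (m + 1) → Ed m => Matrix.of fun i j => v j i := by
    funext v
    ext i j
    simp [Basis.toMatrix_apply]
  rw [this]
  fun_prop

end Pool.Agent.V11188.GM
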