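import Pool.Agent.V11188.GM.A

/-! The volume of a convex body is at most `κ` times the largest determinant of its points. -/

set_option autoImplicit false
open MeasureTheory Set Module Filter Topology Metric TopologicalSpace
open scoped ENNReal RealInnerProductSpace
open Pool.Agent.Helper481.RH

namespace Pool.Agent.V11188.GM

variable {m : ℕ}

/-- the class in which the second moment is minimised -/
def ClsD (m : ℕ) (R : ℝ) (V : ℝ≥0∞) (A : ℝ) : Set (NonemptyCompacts (Ed m)) :=
  {L | (L : Set (Ed m)) ⊆ closedBall 0 R ∧ Convex ℝ (L : Set (Ed m)) ∧ V ≤ volume (L : Set (Ed m)) ∧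
    PropD (L : Set (Ed m)) A}

theorem exists_minD {R : ℝ} {V : ℝ≥0∞} {A : ℝ} (hne : (ClsD m R V A).Nonempty) :
    ∃ L ∈ ClsD m R V A, ∀ M ∈ ClsD m R V A, mom (L : Set (Ed m)) ≤ mom (M : Set (Ed m)) := by
  have : ProperSpace (Ed m) := FiniteDimensional.proper_real (Ed m)
  set S : Set ℝ≥0∞ := (fun M : NonemptyCompacts (Ed m) => mom (M : Set (Ed m))) '' ClsD m R V A with hS
  have hSne : S.Nonempty := hne.image _
  obtain ⟨u, -, hu, huS⟩ := exists_seq_tendsto_sInf hSne (OrderBot.bddBelow S)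
  choose L hL hLu using huS
  have hcpt : IsCompact {M : NonemptyCompacts (Ed m) | (M : Set (Ed m)) ⊆ closedBall (0 : Ed m) R} :=
    NonemptyCompacts.isCompact_subsets_of_isCompact (isCompact_closedBall 0 R)
  obtain ⟨K, hK, φ, hφ, hlim⟩ := hcpt.tendsto_subseq (x := L) (fun n => (hL n).1)
  have hdist : Tendsto (fun n => dist (L (φ n)) K) atTop (𝓝 0) := by
    have := tendsto_iff_dist_tendsto_zero.1 hlim
    exact this
  have hfin : ∀ n, hausdorffEDist (L (φ n) : Set (Ed m)) K ≠ ⊤ := fun n =>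
    hausdorffEDist_ne_top_of_nonempty_of_bounded (L (φ n)).nonempty K.nonempty
      (L (φ n)).isCompact.isBounded K.isCompact.isBounded
  -- approximations
  have happ : ∀ δ : ℝ, 0 < δ → ∀ᶠ n in atTop, (∀ x ∈ (K : Set (Ed m)), ∃ y ∈ (L (φ n) : Set (Ed m)),
      dist x y ≤ δ) ∧ (∀ y ∈ (L (φ n) : Set (Ed m)), ∃ x ∈ (K : Set (Ed m)), dist x y ≤ δ) := by
    intro δ hδ
    filter_upwards [hdist.eventually_lt_const hδ] with n hn
    rw [NonemptyCompacts.dist_eq] at hn
    constructor
    · intro x hx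
      obtain ⟨y, hy, h⟩ := exists_dist_lt_of_hausdorffDist_lt' hx hn (hfin n)
      exact ⟨y, hy, by rw [dist_comm]; exact h.le⟩
    · intro y hy
      obtain ⟨x, hx, h⟩ := exists_dist_lt_of_hausdorffDist_lt hy hn (hfin n)
      exact ⟨x, hx, by rw [dist_comm]; exact h.le⟩
  have hKcl : IsClosed (K : Set (Ed m)) := K.isCompact.isClosed
  -- convexity
  have hKconv : Convex ℝ (K : Set (Ed m)) := by
    intro x hx y hy a b ha hb hab
    rw [← hKcl.closure_eq, Metric.mem_closure_iff]
    intro ε hε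
    obtain ⟨n, h1, h2⟩ := (happ (ε / 4) (by positivity)).exists
    obtain ⟨x', hx', hxx⟩ := h1 x hx
    obtain ⟨y', hy', hyy⟩ := h1 y hy
    obtain ⟨z, hz, hzz⟩ := h2 _ ((hL (φ n)).2.1 hx' hy' ha hb hab)
    refine ⟨z, hz, ?_⟩
    have h3 : dist (a • x + b • y) (a • x' + b • y') ≤ ε / 4 + ε / 4 := by
      refine (dist_add_add_le _ _ _ _).trans ?_
      rw [dist_smul₀, dist_smul₀, Real.norm_eq_abs, Real.norm_eq_abs, abs_of_nonneg ha,
        abs_of_nonneg hb]
      have ha1 : a ≤ 1 := by linarith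
      have hb1 : b ≤ 1 := by linarith
      have := dist_nonneg (x := x) (y := x')
      have := dist_nonneg (x := y) (y := y')
      nlinarith
    have h4 := dist_triangle (a • x + b • y) (a • x' + b • y') z
    rw [dist_comm (a • x' + b • y') z] at h4
    linarith
  -- volume
  have hVK : V ≤ volume (K : Set (Ed m)) := by
    have ht := (tendsto_measure_cthickening_of_isCompact (μ := (volume : Measure (Ed m)))
      K.isCompact).mono_left (nhdsWithin_le_nhds (s := Ioi 0))
    refine ge_of_tendsto ht ?_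
    filter_upwards [self_mem_nhdsWithin] with r hr
    obtain ⟨n, h1, h2⟩ := (happ r hr).exists
    refine (hL (φ n)).2.2.1.trans (measure_mono fun y hy => ?_)
    obtain ⟨x, hx, hxy⟩ := h2 y hy
    exact mem_cthickening_of_dist_le y x r _ hx (by rw [dist_comm]; exact hxy)
  -- determinants
  have hKA : PropD (K : Set (Ed m)) A := by
    intro v hv
    have hp : ∀ n i, ∃ x' ∈ (L (φ n) : Set (Ed m)), dist (v i) x' = infDist (v i) (L (φ n)) := by
      intro n i
      obtain ⟨x', hx', e1⟩ := (L (φ n)).isCompact.exists_infDist_eq_dist (L (φ n)).nonempty (v i)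
      exact ⟨x', hx', e1.symm⟩
    choose w hw hwd using hp
    have hlw : Tendsto (fun n => w n) atTop (𝓝 v) := by
      rw [tendsto_pi_nhds]
      intro i
      rw [Metric.tendsto_atTop]
      intro ε hε
      obtain ⟨n₀, hn₀⟩ := Filter.eventually_atTop.1 (happ (ε / 2) (by positivity))
      refine ⟨n₀, fun n hn => ?_⟩
      obtain ⟨y, hy, hd⟩ := (hn₀ n hn).1 (v i) (hv i)
      have h1 := infDist_le_dist_of_mem (x := v i) hy
      rw [dist_comm, hwd n i]
      linarith
    have h2 : Tendsto (fun n => |dt (w n)|) atTop (𝓝 |dt v|) :=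
      ((continuous_dt.tendsto v).comp hlw).abs
    exact le_of_tendsto' h2 fun n => (hL (φ n)).2.2.2 _ (hw n)
  refine ⟨K, ⟨hK, hKconv, hVK, hKA⟩, fun M hM => ?_⟩
  have hev : ∀ z ∈ interior (K : Set (Ed m)), ∀ᶠ n in atTop, z ∈ (L (φ n) : Set (Ed m)) := by
    intro z hz
    obtain ⟨r, hr, hrs⟩ := Metric.mem_nhds_iff.1 (mem_interior_iff_mem_nhds.1 hz)
    filter_upwards [happ (r / 8) (by positivity)] with n hn
    exact mem_of_close (L (φ n)).isCompact (hL (φ n)).2.1 (L (φ n)).nonempty (δ' := r / 2)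
      (by positivity) (by linarith) hn.1 ((closedBall_subset_ball (by linarith)).trans hrs)
  have hF := lintegral_le_liminf hKconv
    (fun n => (L (φ n)).isCompact.measurableSet) hev
    (f := fun x => ENNReal.ofReal (‖x‖ ^ 2)) (by fun_prop)
  have hlimM : Tendsto (fun n => mom (L (φ n) : Set (Ed m))) atTop (𝓝 (sInf S)) := by
    have h1 : Tendsto (fun n => u (φ n)) atTop (𝓝 (sInf S)) := hu.comp hφ.tendsto_atTop
    refine h1.congr fun n => ?_
    exact (hLu (φ n)).symm
  have h2 : mom (K : Set (Ed m)) ≤ sInf S := by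
    refine hF.trans (le_of_eq ?_)
    exact hlimM.liminf_eq
  exact h2.trans (sInf_le ⟨M, hM, rfl⟩)

theorem min_symmD {R : ℝ} {V : ℝ≥0∞} {A : ℝ} {L : NonemptyCompacts (Ed m)} (hV : V ≠ 0)
    (hL : L ∈ ClsD m R V A)
    (hmin : ∀ M ∈ ClsD m R V A, mom (L : Set (Ed m)) ≤ mom (M : Set (Ed m)))
    {v : Ed m} (hv : ‖v‖ = 1) : ∀ x ∈ L, x - (2 * ⟪v, x⟫) • v ∈ L := by
  obtain ⟨b, hb⟩ := exists_basis hv
  obtain ⟨hLR, hLc, hLV, hLA⟩ := hL
  set K : Set (ℝ × (Fin m → ℝ)) := coord b '' (L : Set (Ed m)) with hKdef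
  have hK : IsCompact K := L.isCompact.image (coord b).continuous
  have hKc : Convex ℝ K := hLc.linear_image (coord b).toLinearEquiv.toLinearMap
  have hKne : K.Nonempty := L.nonempty.image _
  let M : NonemptyCompacts (Ed m) := ⟨⟨(coord b).symm '' St K,
    (St_compact hK).image (coord b).symm.continuous⟩, (St_nonempty hKne).image _⟩
  have hMdef : (M : Set (Ed m)) = (coord b).symm '' St K := rfl
  have hcM : coord b '' (M : Set (Ed m)) = St K := by
    rw [hMdef, image_image]
    simp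
  have hM : M ∈ ClsD m R V A := by
    refine ⟨?_, ?_, ?_, ?_⟩
    · rw [hMdef]
      rintro _ ⟨p, ⟨a, c, ha, hc, hac⟩, rfl⟩
      obtain ⟨x, hx, hxe⟩ := ha
      obtain ⟨y, hy, hye⟩ := hc
      have h1 := hLR hx
      have h2 := hLR hy
      rw [mem_closedBall_zero_iff] at h1 h2 ⊢
      have hR : 0 ≤ R := (norm_nonneg _).trans h1
      have e1 := norm_sq_coord b x
      have e2 := norm_sq_coord b y
      have e3 := norm_sq_coord b ((coord b).symm p)
      rw [hxe] at e1
      rw [hye] at e2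
      rw [(coord b).apply_symm_apply] at e3
      simp only at e1 e2
      rw [← sq_le_sq₀ (norm_nonneg _) hR, e3, hac]
      have h3 : ‖x‖ ^ 2 ≤ R ^ 2 := by gcongr
      have h4 : ‖y‖ ^ 2 ≤ R ^ 2 := by gcongr
      nlinarith [sq_nonneg (a + c)]
    · rw [hMdef]
      exact (St_convex hKc).linear_image (coord b).symm.toLinearEquiv.toLinearMap
    · rw [← volume_coord_image b, hcM, volume_St hK hKc, hKdef, volume_coord_image]
      exact hLV
    · rw [propD_iff b, hcM]
      exact propC_St ((propD_iff b _ _).1 hLA)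
  have h1 := hmin M hM
  have hmomL : mom (L : Set (Ed m)) = ∫⁻ p in K, wt p := by
    rw [hKdef, lintegral_coord_image]
    simp only [wt_coord]
    rfl
  have hmomM : mom (M : Set (Ed m)) = ∫⁻ p in St K, wt p := by
    rw [← hcM, lintegral_coord_image]
    simp only [wt_coord]
    rfl
  rw [hmomL, hmomM] at h1
  have hint : (interior K).Nonempty := by
    apply interior_coord_nonempty
    apply interior_nonempty_of_volume hLc
    intro h0
    rw [h0] at hLV
    exact hV (le_antisymm hLV zero_le)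
  have hfin : ∫⁻ p in K, wt p ≠ ∞ := by
    have hcont : Continuous (fun p : ℝ × (Fin m → ℝ) => p.1 ^ 2 + ∑ i, p.2 i ^ 2) := by fun_prop
    have h3 : IntegrableOn (fun p : ℝ × (Fin m → ℝ) => p.1 ^ 2 + ∑ i, p.2 i ^ 2) K volume :=
      hcont.continuousOn.integrableOn_compact hK
    have h4 := h3.lintegral_lt_top
    exact h4.ne
  have hsym := moment_eq hK hKc hint hfin h1
  intro x hx
  obtain ⟨y, hy, hye⟩ := hsym (coord b x) ⟨x, hx, rfl⟩
  have : y = x - (2 * ⟪v, x⟫) • v := by
    apply (coord b).injective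
    rw [hye, map_sub, map_smul, ← hb, coord_basis, ← coord_fst]
    refine Prod.ext ?_ ?_
    · simp; ring
    · simp
  rw [← this]; exact hy

lemma dt_smul_basis (ρ : ℝ) :
    dt (fun i => ρ • (EuclideanSpace.basisFun (Fin (m + 1)) ℝ) i) = ρ ^ (m + 1) := by
  unfold dt
  have h := (EuclideanSpace.basisFun (Fin (m + 1)) ℝ).toBasis.det.map_smul_univ (fun _ => ρ)
    (fun i => (EuclideanSpace.basisFun (Fin (m + 1)) ℝ) i)
  rw [h]
  have h2 := (EuclideanSpace.basisFun (Fin (m + 1)) ℝ).toBasis.det_self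
  rw [OrthonormalBasis.coe_toBasis] at h2
  rw [h2]
  simp

/-- **The volume of a compact convex set is at most `κ` times the largest determinant of its
points.** -/
theorem volume_le {K : Set (Ed m)} (hK : IsCompact K) (hKc : Convex ℝ K) {A : ℝ}
    (hA : PropD K A) : volume K ≤ ENNReal.ofReal A * volume (closedBall (0 : Ed m) 1) := by
  by_cases hv : volume K = 0
  · rw [hv]; exact zero_le
  have hne : K.Nonempty := by
    by_contra h
    rw [not_nonempty_iff_eq_empty] at h
    exact hv (by rw [h]; simp)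
  obtain ⟨R, hR⟩ := hK.isBounded.subset_closedBall 0
  have hcls : (ClsD m R (volume K) A).Nonempty := ⟨⟨⟨K, hK⟩, hne⟩, hR, hKc, le_rfl, hA⟩
  obtain ⟨L, hL, hmin⟩ := exists_minD hcls
  have hsym := fun v hv' => min_symmD hv hL hmin (v := v) hv'
  obtain ⟨hLR, hLc, hLV, hLA⟩ := hL
  obtain ⟨ρ, hρ, hball⟩ := eq_ball L.isCompact hLc L.nonempty hsym
  rw [hball] at hLV hLA
  have h1 := hLA (fun i => ρ • (EuclideanSpace.basisFun (Fin (m + 1)) ℝ) i) (by
    intro i
    rw [mem_closedBall_zero_iff, norm_smul, Real.norm_eq_abs, abs_of_nonneg hρ]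
    simp)
  rw [dt_smul_basis, abs_of_nonneg (by positivity)] at h1
  refine hLV.trans ?_
  rw [Measure.addHaar_closedBall_eq_addHaar_ball, Measure.addHaar_ball _ _ hρ,
    ← Measure.addHaar_closedBall_eq_addHaar_ball, finrank_euclideanSpace, Fintype.card_fin]
  gcongr

end Pool.Agent.V11188.GM
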