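import Pool.Agent.V11188.GM.B

/-! Maximal tuples through the boundary points of an extremal body. -/

set_option autoImplicit false
open MeasureTheory Set Module Filter Topology Metric TopologicalSpace
open scoped ENNReal RealInnerProductSpace
open Pool.Agent.Helper481.RH

namespace Pool.Agent.V11188.GM

variable {m : ℕ}

/-- the determinant as an alternating map -/
noncomputable def dtA (m : ℕ) : (Ed m) [⋀^Fin (m + 1)]→ₗ[ℝ] ℝ :=
  (EuclideanSpace.basisFun (Fin (m + 1)) ℝ).toBasis.det

lemma dt_eq_dtA (v : Fin (m + 1) → Ed m) : dt v = dtA m v := rfl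

lemma propD_mono_step {S : Set (Ed m)} {A : ℝ} (h : PropD S A) (T : Finset (Fin (m + 1))) :
    ∀ v : Fin (m + 1) → Ed m, (∀ i ∈ T, v i ∈ convexHull ℝ S) → (∀ i, i ∉ T → v i ∈ S) →
      |dt v| ≤ A := by
  induction T using Finset.induction_on with
  | empty =>
    intro v _ h2
    exact h v fun i => h2 i (Finset.notMem_empty i)
  | insert i T hi ih =>
    intro v h1 h2
    let f : Ed m →ₗ[ℝ] ℝ := (dtA m).toMultilinearMap.toLinearMap v i
    have hf : ∀ z, f z = dt (Function.update v i z) := fun z => rfl
    have hconv : Convex ℝ {z : Ed m | f z ∈ Set.Icc (-A) A} :=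
      (convex_Icc (-A) A).linear_preimage f
    have hsub : convexHull ℝ S ⊆ {z : Ed m | f z ∈ Set.Icc (-A) A} := by
      refine convexHull_min (fun z hz => ?_) hconv
      have := ih (Function.update v i z) (fun j hj => ?_) (fun j hj => ?_)
      · rw [← hf, abs_le] at this
        exact this
      · have hji : j ≠ i := fun e => hi (e ▸ hj)
        rw [Function.update_of_ne hji]
        exact h1 j (Finset.mem_insert_of_mem hj)
      · by_cases hji : j = i
        · subst hji
          rw [Function.update_self]
          exact hz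
        · rw [Function.update_of_ne hji]
          exact h2 j (by rw [Finset.mem_insert]; tauto)
    have h3 := hsub (h1 i (Finset.mem_insert_self i T))
    have h4 : f (v i) = dt v := by rw [hf, Function.update_eq_self]
    rw [abs_le, ← h4]
    exact h3

lemma propD_hull {S : Set (Ed m)} {A : ℝ} (h : PropD S A) : PropD (convexHull ℝ S) A := by
  intro v hv
  exact propD_mono_step h Finset.univ v (fun i _ => hv i) fun i hi => absurd (Finset.mem_univ i) hi

lemma dt_update_smul (v : Fin (m + 1) → Ed m) (i : Fin (m + 1)) (c : ℝ) (x : Ed m)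
    (hv : v i = c • x) : dt v = c * dt (Function.update v i x) := by
  have h := (dtA m).map_update_smul v i c x
  rw [← hv, Function.update_eq_self, smul_eq_mul] at h
  exact h

lemma dt_eq_zero_of_smul {v : Fin (m + 1) → Ed m} {i j : Fin (m + 1)} (hij : i ≠ j) {x : Ed m}
    {c c' : ℝ} (hi : v i = c • x) (hj : v j = c' • x) : dt v = 0 := by
  rw [dt_update_smul v i c x hi]
  rw [dt_update_smul (Function.update v i x) j c' x (by rw [Function.update_of_ne hij.symm, hj])]
  have : dt (Function.update (Function.update v i x) j x) = 0 := by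
    rw [dt_eq_dtA]
    refine (dtA m).map_eq_zero_of_eq _ ?_ hij
    rw [Function.update_self, Function.update_of_ne hij, Function.update_self]
  rw [this]; ring

/-- **Maximal tuples.** In an extremal body every boundary point belongs to a maximal tuple. -/
theorem exists_tuple {N : Set (Ed m)} (hN : IsCompact N) (hNc : Convex ℝ N)
    {A : ℝ} (hA : 0 < A) (hD : PropD N A)
    (hvol : volume N = ENNReal.ofReal A * volume (closedBall (0 : Ed m) 1))
    {x : Ed m} (hx : x ∈ N) (hxb : ∀ ε : ℝ, 0 < ε → (1 + ε) • x ∉ N) :
    ∃ v : Fin (m + 1) → Ed m, (∀ i, v i ∈ N) ∧ (∃ i, v i = x) ∧ |dt v| = A := by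
  classical
  set T : Set (Fin (m + 1) → Ed m) := (Set.univ.pi fun _ => N) ∩ {v | ∃ i, v i = x} with hT
  have hTc : IsCompact T := by
    refine (isCompact_univ_pi fun _ => hN).inter_right ?_
    have : {v : Fin (m + 1) → Ed m | ∃ i, v i = x} = ⋃ i, {v | v i = x} := by
      ext v; simp
    rw [this]
    exact isClosed_iUnion_of_finite fun i => isClosed_eq (continuous_apply i) continuous_const
  have hTne : T.Nonempty := ⟨fun _ => x, fun i _ => hx, 0, rfl⟩
  obtain ⟨v, hvT, hvm⟩ := hTc.exists_isMaxOn hTne (f := fun v => |dt v|)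
    (continuous_dt.abs).continuousOn
  have hvN : ∀ i, v i ∈ N := fun i => hvT.1 i (mem_univ i)
  refine ⟨v, hvN, hvT.2, ?_⟩
  by_contra hne
  have hlt : |dt v| < A := lt_of_le_of_ne (hD v hvN) hne
  set δ := |dt v| with hδ
  have hδ0 : 0 ≤ δ := abs_nonneg _
  set ε : ℝ := (A - δ) / (δ + 1) with hε
  have hε0 : 0 < ε := div_pos (by linarith) (by linarith)
  have hεδ : (1 + ε) * δ ≤ A := by
    have h1 : ε * δ ≤ ε * (δ + 1) := by nlinarith
    have h2 : ε * (δ + 1) = A - δ := by rw [hε]; field_simp
    nlinarith
  set S : Set (Ed m) := N ∪ {(1 + ε) • x, -((1 + ε) • x)} with hS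
  have hxS : ∀ z ∈ S, z ∉ N → ∃ c : ℝ, |c| = 1 + ε ∧ z = c • x := by
    rintro z (hz | hz) hzN
    · exact absurd hz hzN
    · rcases hz with hz | hz
      · exact ⟨1 + ε, abs_of_pos (by linarith), hz⟩
      · refine ⟨-(1 + ε), by rw [abs_neg, abs_of_pos (by linarith)], ?_⟩
        rw [mem_singleton_iff] at hz
        rw [hz, neg_smul]
  have hSD : PropD S A := by
    intro w hw
    by_cases hall : ∀ i, w i ∈ N
    · exact hD w hall
    · push Not at hall
      obtain ⟨i, hi⟩ := hall
      obtain ⟨c, hc, hwi⟩ := hxS _ (hw i) hi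
      by_cases h2 : ∃ j, j ≠ i ∧ w j ∉ N
      · obtain ⟨j, hji, hj⟩ := h2
        obtain ⟨c', hc', hwj⟩ := hxS _ (hw j) hj
        rw [dt_eq_zero_of_smul hji hwj hwi, abs_zero]
        exact hA.le
      · push Not at h2
        rw [dt_update_smul w i c x hwi, abs_mul, hc]
        refine le_trans ?_ hεδ
        refine mul_le_mul_of_nonneg_left ?_ (by linarith)
        have hmem : Function.update w i x ∈ T := by
          refine ⟨fun j _ => ?_, i, Function.update_self _ _ _⟩
          by_cases hji : j = i
          · subst hji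
            rw [Function.update_self]; exact hx
          · rw [Function.update_of_ne hji]
            exact h2 j hji
        exact hvm hmem
  set N' : Set (Ed m) := convexHull ℝ S with hN'
  have hN'c : IsCompact N' := by
    have h1 : N' = convexHull ℝ (N ∪ convexHull ℝ {(1 + ε) • x, -((1 + ε) • x)}) := by
      rw [convexHull_convexHull_union_right]
    rw [h1]
    refine isCompact_convexHull_union hN ?_ hNc (convex_convexHull ℝ _)
    exact (Set.toFinite _).isCompact_convexHull ℝ
  have hvol' := volume_le hN'c (convex_convexHull ℝ S) (propD_hull hSD)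
  rw [← hvol] at hvol'
  have hsub : N ⊆ N' := (subset_union_left).trans (subset_convexHull ℝ S)
  have hfin : volume N ≠ ∞ := hN.measure_lt_top.ne
  have hnull : volume (N' \ N) = 0 := by
    rw [measure_sdiff hsub hN.measurableSet.nullMeasurableSet hfin]
    exact tsub_eq_zero_of_le hvol'
  have hvN0 : volume N ≠ 0 := by
    rw [hvol]
    refine mul_ne_zero (by simpa using hA) ?_
    exact (measure_closedBall_pos _ _ one_pos).ne'
  have hint : (interior N').Nonempty := by
    refine (interior_nonempty_of_volume hNc hvN0).mono (interior_mono hsub)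
  have hsub2 : interior N' ⊆ N := by
    have h1 : IsOpen (interior N' \ N) := isOpen_interior.sdiff hN.isClosed
    have h2 : volume (interior N' \ N) = 0 :=
      measure_mono_null (sdiff_subset_sdiff interior_subset Subset.rfl) hnull
    have h3 := h1.measure_eq_zero_iff (μ := volume) |>.1 h2
    intro z hz
    by_contra hcon
    have : z ∈ interior N' \ N := ⟨hz, hcon⟩
    rw [h3] at this
    exact this
  have h4 : closure (interior N') = N' := by
    rw [(convex_convexHull ℝ S).closure_interior_eq_closure_of_nonempty_interior hint,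
      hN'c.isClosed.closure_eq]
  have h5 : N' ⊆ N := by
    rw [← h4]
    exact closure_minimal hsub2 hN.isClosed
  exact hxb ε hε0 (h5 (subset_convexHull ℝ S (Or.inr (Or.inl rfl))))

end Pool.Agent.V11188.GM
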