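import Pool.Agent.V11188.GM.C1

/-! The midpoints of the chords of an extremal body: the key inequality. -/

set_option autoImplicit false
open MeasureTheory Set Module Filter Topology Metric TopologicalSpace
open scoped ENNReal RealInnerProductSpace
open Pool.Agent.Helper481.RH

namespace Pool.Agent.V11188.GM

variable {m : ℕ}

/-! ### algebra of determinants in coordinates -/

lemma dtc_eq_dt (v : Fin (m + 1) → ℝ × (Fin m → ℝ)) :
    dtc v = (EuclideanSpace.basisFun (Fin (m + 1)) ℝ).toBasis.det
      (fun i => (coord (EuclideanSpace.basisFun (Fin (m + 1)) ℝ)).symm (v i)) := by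
  rw [det_basis_coord]
  simp

lemma comp_update (b : OrthonormalBasis (Fin (m + 1)) ℝ (Ed m)) (v : Fin (m + 1) → ℝ × (Fin m → ℝ))
    (i : Fin (m + 1)) (z : ℝ × (Fin m → ℝ)) :
    (fun j => (coord b).symm (Function.update v i z j)) =
      Function.update (fun j => (coord b).symm (v j)) i ((coord b).symm z) := by
  funext j
  by_cases h : j = i
  · subst h; simp
  · simp [Function.update_of_ne h]

lemma dtc_update_smul (v : Fin (m + 1) → ℝ × (Fin m → ℝ)) (i : Fin (m + 1)) (c : ℝ)
    (z : ℝ × (Fin m → ℝ)) :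
    dtc (Function.update v i (c • z)) = c * dtc (Function.update v i z) := by
  rw [dtc_eq_dt, dtc_eq_dt, comp_update, comp_update, map_smul]
  have := (dtA m).map_update_smul (fun j => (coord (EuclideanSpace.basisFun (Fin (m + 1)) ℝ)).symm (v j))
    i c ((coord (EuclideanSpace.basisFun (Fin (m + 1)) ℝ)).symm z)
  exact this

lemma dtc_add {u v w : Fin (m + 1) → ℝ × (Fin m → ℝ)} (h1 : ∀ j, (u j).2 = (w j).2)
    (h2 : ∀ j, (v j).2 = (w j).2) (h3 : ∀ j, (w j).1 = (u j).1 + (v j).1) :
    dtc w = dtc u + dtc v := by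
  rw [dtc_eq, dtc_eq, dtc_eq, ← Finset.sum_add_distrib]
  refine Finset.sum_congr rfl fun j _ => ?_
  have e1 : (fun k => (u k).2) = fun k => (w k).2 := funext h1
  have e2 : (fun k => (v k).2) = fun k => (w k).2 := funext h2
  rw [h3 j, e1, e2]; ring

lemma dtc_sub {u v w : Fin (m + 1) → ℝ × (Fin m → ℝ)} (h1 : ∀ j, (u j).2 = (w j).2)
    (h2 : ∀ j, (v j).2 = (w j).2) (h3 : ∀ j, (w j).1 = (u j).1 - (v j).1) :
    dtc w = dtc u - dtc v := by
  rw [dtc_eq, dtc_eq, dtc_eq, ← Finset.sum_sub_distrib]
  refine Finset.sum_congr rfl fun j _ => ?_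
  have e1 : (fun k => (u k).2) = fun k => (w k).2 := funext h1
  have e2 : (fun k => (v k).2) = fun k => (w k).2 := funext h2
  rw [h3 j, e1, e2]; ring

lemma cof_update (y : Fin (m + 1) → (Fin m → ℝ)) (i : Fin (m + 1)) (η : Fin m → ℝ) :
    cof (Function.update y i η) i = cof y i := by
  unfold cof
  congr 2
  ext a k
  simp only [Matrix.of_apply]
  rw [Function.update_of_ne (Fin.succAbove_ne i k)]

/-- the dependence on the first coordinate -/
lemma dtc_shift (v : Fin (m + 1) → ℝ × (Fin m → ℝ)) (i : Fin (m + 1)) (s s' : ℝ) (η : Fin m → ℝ) :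
    dtc (Function.update v i (s, η)) =
      dtc (Function.update v i (s', η)) + (s - s') * cof (fun k => (v k).2) i := by
  rw [dtc_eq, dtc_eq]
  have e : ∀ r : ℝ, (fun k => (Function.update v i (r, η) k).2) =
      Function.update (fun k => (v k).2) i η := by
    intro r
    funext k
    by_cases h : k = i
    · subst h; simp
    · simp [Function.update_of_ne h]
  rw [e s, e s']
  rw [← Finset.add_sum_erase _ _ (Finset.mem_univ i), ← Finset.add_sum_erase _ _ (Finset.mem_univ i)]
  have h1 : ∑ j ∈ Finset.univ.erase i, (Function.update v i (s, η) j).1 *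
        cof (Function.update (fun k => (v k).2) i η) j =
      ∑ j ∈ Finset.univ.erase i, (Function.update v i (s', η) j).1 *
        cof (Function.update (fun k => (v k).2) i η) j := by
    refine Finset.sum_congr rfl fun j hj => ?_
    have hji := Finset.ne_of_mem_erase hj
    rw [Function.update_of_ne hji, Function.update_of_ne hji]
  rw [h1]
  simp only [Function.update_self]
  rw [cof_update]
  ring

/-! ### chords -/

/-- upper end of the chord over `y` -/
noncomputable def hi (C : Set (ℝ × (Fin m → ℝ))) (y : Fin m → ℝ) : ℝ := sSup (fib C y)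

/-- half of the length of the chord -/
noncomputable def hl (C : Set (ℝ × (Fin m → ℝ))) (y : Fin m → ℝ) : ℝ := (hi C y + hi C (-y)) / 2

/-- midpoint of the chord -/
noncomputable def mid (C : Set (ℝ × (Fin m → ℝ))) (y : Fin m → ℝ) : ℝ := (hi C y - hi C (-y)) / 2

/-- the class of sets considered -/
structure Sym (C : Set (ℝ × (Fin m → ℝ))) : Prop where
  cpt : IsCompact C
  conv : Convex ℝ C
  neg : ∀ p ∈ C, -p ∈ C

variable {C : Set (ℝ × (Fin m → ℝ))}

lemma Sym.fib_neg (h : Sym C) (y : Fin m → ℝ) : fib C (-y) = -fib C y := by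
  ext s
  rw [Set.mem_neg, mem_fib, mem_fib]
  constructor
  · intro hs
    have := h.neg _ hs
    simpa using this
  · intro hs
    have := h.neg _ hs
    simpa using this

lemma Sym.fib_eq (h : Sym C) {y : Fin m → ℝ} (hne : (fib C y).Nonempty) :
    fib C y = Icc (-hi C (-y)) (hi C y) ∧ -hi C (-y) ≤ hi C y := by
  obtain ⟨p, q, hpq, hp, hq, hI⟩ := fib_eq_Icc h.cpt h.conv hne
  have h1 : hi C y = q := by
    unfold hi
    rw [hI, csSup_Icc hpq]
  have h2 : hi C (-y) = -p := by
    unfold hi
    rw [h.fib_neg, hI, Set.neg_Icc, csSup_Icc (by linarith)]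
  rw [h1, h2, neg_neg]
  exact ⟨hI, hpq⟩

lemma Sym.mem_iff (h : Sym C) {y : Fin m → ℝ} (hne : (fib C y).Nonempty) (s : ℝ) :
    (s, y) ∈ C ↔ |s - mid C y| ≤ hl C y := by
  have h1 := (h.fib_eq hne).1
  rw [← mem_fib, h1, mem_Icc, abs_le]
  unfold mid hl
  constructor
  · rintro ⟨a, b⟩; constructor <;> linarith
  · rintro ⟨a, b⟩; constructor <;> linarith

lemma Sym.hl_nonneg (h : Sym C) {y : Fin m → ℝ} (hne : (fib C y).Nonempty) : 0 ≤ hl C y := by
  have := (h.fib_eq hne).2
  unfold hl; linarith

lemma Sym.mem_St_iff (h : Sym C) {y : Fin m → ℝ} (s : ℝ) :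
    (s, y) ∈ St C ↔ (fib C y).Nonempty ∧ |s| ≤ hl C y := by
  constructor
  · intro hs
    obtain ⟨a, b, ha, hb, hab⟩ := hs
    simp only at ha hb hab
    have hne : (fib C y).Nonempty := ⟨a, ha⟩
    refine ⟨hne, ?_⟩
    have h1 := (h.mem_iff hne a).1 ha
    have h2 := (h.mem_iff hne b).1 hb
    rw [abs_le] at h1 h2 ⊢
    rw [hab]
    constructor <;> linarith [h1.1, h1.2, h2.1, h2.2]
  · rintro ⟨hne, hs⟩
    refine ⟨mid C y + s, mid C y - s, ?_, ?_, ?_⟩
    · rw [h.mem_iff hne]; simpa using hs
    · rw [h.mem_iff hne]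
      rw [show mid C y - s - mid C y = -s by ring, abs_neg]
      exact hs
    · simp only; ring

lemma Sym.smul_mem (h : Sym C) {p : ℝ × (Fin m → ℝ)} (hp : p ∈ C) {t : ℝ} (ht0 : 0 ≤ t)
    (ht1 : t ≤ 1) : t • p ∈ C := by
  have h0 : (0 : ℝ × (Fin m → ℝ)) ∈ C := by
    have h1 := h.conv hp (h.neg p hp) (a := 1 / 2) (b := 1 / 2) (by norm_num) (by norm_num)
      (by norm_num)
    have e : (1 / 2 : ℝ) • p + (1 / 2 : ℝ) • (-p) = 0 := by module
    rwa [e] at h1
  have := h.conv hp h0 ht0 (by linarith : (0:ℝ) ≤ 1 - t) (by ring)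
  simpa using this

/-- **The key inequality.** -/
theorem key {A : ℝ} (hA : 0 < A) (h : Sym C) (hP : PropC C A)
    (hvol : volume C = ENNReal.ofReal A * volume (closedBall (0 : Ed m) 1))
    {w : Fin m → ℝ} (hw : (fib C w).Nonempty) {t₀ : ℝ} (h0 : 0 < t₀) (h1 : t₀ < 1) :
    ∃ ρ : ℝ, 0 < ρ ∧ ∀ t : ℝ, 0 ≤ t → t ≤ 1 →
      |mid C (t • w) - t / t₀ * mid C (t₀ • w)| ≤
        ρ * (1 - t / t₀) + t / t₀ * hl C (t₀ • w) - hl C (t • w) := by
  classical
  set b := EuclideanSpace.basisFun (Fin (m + 1)) ℝ with hb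
  obtain ⟨sw, hsw⟩ := hw
  have hne : C.Nonempty := ⟨_, hsw⟩
  -- the fibres over `t w`
  have hfib : ∀ t : ℝ, 0 ≤ t → t ≤ 1 → (fib C (t • w)).Nonempty := by
    intro t ht0 ht1
    have := h.smul_mem hsw ht0 ht1
    exact ⟨t * sw, this⟩
  have hfw : (fib C w).Nonempty := ⟨sw, hsw⟩
  -- the symmetrised body
  set N : Set (Ed m) := (coord b).symm '' St C with hN
  have hcN : coord b '' N = St C := by
    rw [hN, image_image]; simp
  have hNc : IsCompact N := (St_compact h.cpt).image (coord b).symm.continuous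
  have hNconv : Convex ℝ N := (St_convex h.conv).linear_image (coord b).symm.toLinearEquiv.toLinearMap
  have hPN : PropD N A := by
    rw [propD_iff b, hcN]
    exact propC_St hP
  have hvN : volume N = ENNReal.ofReal A * volume (closedBall (0 : Ed m) 1) := by
    rw [← volume_coord_image b, hcN, volume_St h.cpt h.conv, hvol]
  -- `0` is an interior point
  have hv0 : volume C ≠ 0 := by
    rw [hvol]
    refine mul_ne_zero (by simpa using hA) ?_
    exact (measure_closedBall_pos _ _ one_pos).ne'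
  have hint0 : (0 : ℝ × (Fin m → ℝ)) ∈ interior C := by
    have hi1 : (interior C).Nonempty := by
      have hCe : coord b '' ((coord b).symm '' C) = C := by
        rw [image_image]; simp
      rw [← hCe]
      apply interior_coord_nonempty
      apply interior_nonempty_of_volume
        (h.conv.linear_image (coord b).symm.toLinearEquiv.toLinearMap)
      intro h2
      apply hv0
      rw [← hCe, volume_coord_image]
      exact h2
    obtain ⟨z, hz⟩ := hi1
    have hz' : -z ∈ interior C := by
      have h2 : (Homeomorph.neg (ℝ × (Fin m → ℝ))) '' interior C =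
          interior ((Homeomorph.neg (ℝ × (Fin m → ℝ))) '' C) :=
        (Homeomorph.neg (ℝ × (Fin m → ℝ))).image_interior C
      have h3 : (Homeomorph.neg (ℝ × (Fin m → ℝ))) '' C = C := by
        ext p
        constructor
        · rintro ⟨q, hq, rfl⟩; exact h.neg q hq
        · intro hp; exact ⟨-p, h.neg p hp, by simp⟩
      rw [h3] at h2
      rw [← h2]
      exact ⟨z, hz, rfl⟩
    have h4 := h.conv.interior hz hz' (a := 1 / 2) (b := 1 / 2) (by norm_num) (by norm_num)
      (by norm_num)
    have e : (1 / 2 : ℝ) • z + (1 / 2 : ℝ) • (-z) = 0 := by module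
    rwa [e] at h4
  have hl0 : 0 < hl C 0 := by
    obtain ⟨r, hr, hrs⟩ := Metric.mem_nhds_iff.1 (mem_interior_iff_mem_nhds.1 hint0)
    have h5 : ((r / 2 : ℝ), (0 : Fin m → ℝ)) ∈ C := by
      apply hrs
      rw [mem_ball, dist_zero_right, Prod.norm_def]
      simp only [Real.norm_eq_abs, norm_zero]
      rw [max_eq_left (abs_nonneg _), abs_of_pos (by positivity)]
      linarith
    have h6 := (h.mem_iff ⟨_, h5⟩ _).1 h5
    have h7 : mid C (0 : Fin m → ℝ) = 0 := by unfold mid; simp
    rw [h7, sub_zero, abs_of_pos (by positivity)] at h6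
    linarith
  -- the boundary point
  set f₀ := hl C (t₀ • w) with hf₀
  set μ₀ := mid C (t₀ • w) with hμ₀
  have hft₀ := hfib t₀ h0.le h1.le
  have hf₀n : 0 ≤ f₀ := h.hl_nonneg hft₀
  have hxS : (f₀, t₀ • w) ∈ St C := by
    rw [h.mem_St_iff]
    exact ⟨hft₀, (abs_of_nonneg hf₀n).le⟩
  have hxb : ∀ ε : ℝ, 0 < ε → (1 + ε) • ((f₀, t₀ • w) : ℝ × (Fin m → ℝ)) ∉ St C := by
    intro ε hε hcon
    have h2 : ((hl C 0, (0 : Fin m → ℝ)) : ℝ × (Fin m → ℝ)) ∈ St C := by
      rw [h.mem_St_iff]
      refine ⟨?_, (abs_of_pos hl0).le⟩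
      have := hfib 0 le_rfl zero_le_one
      simpa using this
    have h3 := (St_convex h.conv) hcon h2 (a := 1 / (1 + ε)) (b := ε / (1 + ε)) (by positivity)
      (by positivity) (by field_simp)
    have e : (1 / (1 + ε)) • ((1 + ε) • ((f₀, t₀ • w) : ℝ × (Fin m → ℝ))) +
        (ε / (1 + ε)) • ((hl C 0, (0 : Fin m → ℝ)) : ℝ × (Fin m → ℝ)) =
        (f₀ + ε / (1 + ε) * hl C 0, t₀ • w) := by
      rw [smul_smul, one_div, inv_mul_cancel₀ (by positivity), one_smul]
      refine Prod.ext ?_ ?_
      · simp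
      · simp
    rw [e, h.mem_St_iff] at h3
    have h4 := (le_abs_self _).trans h3.2
    have h5 : 0 < ε / (1 + ε) * hl C 0 := by positivity
    linarith
  obtain ⟨v', hv'N, ⟨i₀, hi₀⟩, hv'A⟩ := exists_tuple hNc hNconv hA hPN hvN
    (x := (coord b).symm (f₀, t₀ • w)) ⟨_, hxS, rfl⟩ (by
      rintro ε hε ⟨p, hp, hpe⟩
      rw [← map_smul] at hpe
      have := (coord b).symm.injective hpe
      exact hxb ε hε (this ▸ hp))
  -- in coordinates
  set v : Fin (m + 1) → ℝ × (Fin m → ℝ) := fun i => coord b (v' i) with hv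
  have hvS : ∀ i, v i ∈ St C := by
    intro i
    rw [← hcN]
    exact ⟨v' i, hv'N i, rfl⟩
  have hvi : v i₀ = (f₀, t₀ • w) := by
    rw [hv]; simp only; rw [hi₀]; simp
  have hvA : |dtc v| = A := by
    rw [← hv'A, dt_coord b]
  have hvS' : ∀ i, (fib C (v i).2).Nonempty ∧ |(v i).1| ≤ hl C (v i).2 := fun i =>
    (h.mem_St_iff (v i).1).1 (hvS i)
  set u : Fin (m + 1) → ℝ × (Fin m → ℝ) := fun i => (mid C (v i).2, (v i).2) with hu
  -- general estimate
  have hest : ∀ (s : ℝ) (η : Fin m → ℝ), (s, η) ∈ St C →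
      |dtc (Function.update u i₀ (mid C η, η))| + |dtc (Function.update v i₀ (s, η))| ≤ A := by
    intro s η hs
    have hs' := (h.mem_St_iff s).1 hs
    have e1 : |dtc (Function.update u i₀ (mid C η, η)) + dtc (Function.update v i₀ (s, η))| ≤ A := by
      have := hP (fun i => ((Function.update u i₀ (mid C η, η) i).1 +
        (Function.update v i₀ (s, η) i).1, (Function.update v i₀ (s, η) i).2)) (fun i => by
          by_cases hii : i = i₀
          · subst hii
            simp only [Function.update_self]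
            rw [h.mem_iff hs'.1]
            simpa using hs'.2
          · simp only [Function.update_of_ne hii]
            rw [h.mem_iff (hvS' i).1]
            simpa [hu] using (hvS' i).2)
      rwa [dtc_add (u := Function.update u i₀ (mid C η, η)) (v := Function.update v i₀ (s, η))
        (w := fun i => ((Function.update u i₀ (mid C η, η) i).1 +
          (Function.update v i₀ (s, η) i).1, (Function.update v i₀ (s, η) i).2))
        (fun j => by
          by_cases hii : j = i₀
          · subst hii; simp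
          · simp [Function.update_of_ne hii, hu]) (fun j => rfl) (fun j => rfl)] at this
    have e2 : |dtc (Function.update u i₀ (mid C η, η)) - dtc (Function.update v i₀ (s, η))| ≤ A := by
      have := hP (fun i => ((Function.update u i₀ (mid C η, η) i).1 -
        (Function.update v i₀ (s, η) i).1, (Function.update v i₀ (s, η) i).2)) (fun i => by
          by_cases hii : i = i₀
          · subst hii
            simp only [Function.update_self]
            rw [h.mem_iff hs'.1]
            rw [show mid C η - s - mid C η = -s by ring, abs_neg]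
            exact hs'.2
          · simp only [Function.update_of_ne hii]
            rw [h.mem_iff (hvS' i).1]
            rw [show (u i).1 - (v i).1 - mid C (v i).2 = -(v i).1 by simp [hu], abs_neg]
            exact (hvS' i).2)
      rwa [dtc_sub (u := Function.update u i₀ (mid C η, η)) (v := Function.update v i₀ (s, η))
        (w := fun i => ((Function.update u i₀ (mid C η, η) i).1 -
          (Function.update v i₀ (s, η) i).1, (Function.update v i₀ (s, η) i).2))
        (fun j => by
          by_cases hii : j = i₀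
          · subst hii; simp
          · simp [Function.update_of_ne hii, hu]) (fun j => rfl) (fun j => rfl)] at this
    rw [abs_le] at e1 e2
    rcases abs_cases (dtc (Function.update u i₀ (mid C η, η))) with ⟨a1, _⟩ | ⟨a1, _⟩ <;>
    rcases abs_cases (dtc (Function.update v i₀ (s, η))) with ⟨a2, _⟩ | ⟨a2, _⟩ <;>
    rw [a1, a2] <;> linarith [e1.1, e1.2, e2.1, e2.2]
  -- the tuple of midpoints is degenerate
  have hu0 : dtc u = 0 := by
    have h2 := hest f₀ (t₀ • w) hxS
    have h3 : Function.update v i₀ (f₀, t₀ • w) = v := by rw [← hvi, Function.update_eq_self]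
    have h4 : Function.update u i₀ (mid C (t₀ • w), t₀ • w) = u := by
      have : u i₀ = (mid C (t₀ • w), t₀ • w) := by rw [hu]; simp only; rw [hvi]
      rw [← this, Function.update_eq_self]
    rw [h3, h4, hvA] at h2
    have := abs_nonneg (dtc u)
    exact abs_eq_zero.1 (by linarith)
  set c := cof (fun k => (v k).2) i₀ with hc
  have hcu : cof (fun k => (u k).2) i₀ = c := rfl
  set σ := dtc v with hσ
  -- formulas along the ray
  have hvray : ∀ (t s : ℝ), dtc (Function.update v i₀ (s, t • w)) =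
      t / t₀ * σ + (s - t / t₀ * f₀) * c := by
    intro t s
    rw [dtc_shift v i₀ s (t / t₀ * f₀) (t • w)]
    have e : ((t / t₀ * f₀, t • w) : ℝ × (Fin m → ℝ)) = (t / t₀) • (f₀, t₀ • w) := by
      refine Prod.ext ?_ ?_
      · simp
      · simp [smul_smul, div_mul_cancel₀ _ h0.ne']
    rw [e, dtc_update_smul, ← hvi, Function.update_eq_self]
  have huray : ∀ (t s : ℝ), dtc (Function.update u i₀ (s, t • w)) = (s - t / t₀ * μ₀) * c := by
    intro t s
    rw [dtc_shift u i₀ s (t / t₀ * μ₀) (t • w)]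
    have e : ((t / t₀ * μ₀, t • w) : ℝ × (Fin m → ℝ)) = (t / t₀) • (μ₀, t₀ • w) := by
      refine Prod.ext ?_ ?_
      · simp
      · simp [smul_smul, div_mul_cancel₀ _ h0.ne']
    have h4 : Function.update u i₀ (μ₀, t₀ • w) = u := by
      have : u i₀ = (μ₀, t₀ • w) := by rw [hu]; simp only; rw [hvi]
      rw [← this, Function.update_eq_self]
    rw [e, dtc_update_smul, h4, hu0, mul_zero, zero_add, hcu]
  -- a sign
  obtain ⟨c', hc', hcc⟩ : ∃ c' : ℝ, |c| = |c'| ∧ ∀ r q : ℝ, |r * σ + q * c| = |r * A + q * c'| := by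
    rcases (abs_eq hA.le).1 hvA with h2 | h2
    · refine ⟨c, rfl, fun r q => ?_⟩
      rw [h2]
    · refine ⟨-c, (abs_neg c).symm, fun r q => ?_⟩
      rw [h2, ← abs_neg]
      congr 1; ring
  have hE1 : ∀ t : ℝ, 0 ≤ t → t ≤ 1 → |mid C (t • w) - t / t₀ * μ₀| * |c'| +
      |t / t₀ * A + (hl C (t • w) - t / t₀ * f₀) * c'| ≤ A := by
    intro t ht0 ht1
    have h2 := hest (hl C (t • w)) (t • w) (by
      rw [h.mem_St_iff]
      exact ⟨hfib t ht0 ht1, (abs_of_nonneg (h.hl_nonneg (hfib t ht0 ht1))).le⟩)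
    rw [hvray, huray, abs_mul, hcc, hc'] at h2
    exact h2
  have hE2 : |1 / t₀ * A + (0 - 1 / t₀ * f₀) * c'| ≤ A := by
    have h2 := hest 0 ((1:ℝ) • w) (by
      rw [h.mem_St_iff]
      refine ⟨hfib 1 zero_le_one le_rfl, ?_⟩
      rw [abs_zero]
      exact h.hl_nonneg (hfib 1 zero_le_one le_rfl))
    rw [hvray, hcc] at h2
    have := abs_nonneg (dtc (Function.update u i₀ (mid C ((1:ℝ) • w), (1:ℝ) • w)))
    linarith
  have hcpos : 0 < c' := by
    have h2 := (abs_le.1 hE2).2
    have h3 : 1 / t₀ * (A - f₀ * c') ≤ A := by linarith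
    have h4 : A - f₀ * c' ≤ A * t₀ := by
      have := mul_le_mul_of_nonneg_right h3 h0.le
      field_simp at this
      linarith
    have h5 : 0 < f₀ * c' := by nlinarith
    by_contra hcon
    have h6 : c' ≤ 0 := not_lt.1 hcon
    nlinarith
  refine ⟨A / c', by positivity, fun t ht0 ht1 => ?_⟩
  have h2 := hE1 t ht0 ht1
  rw [abs_of_pos hcpos] at h2
  have h3 := le_abs_self (t / t₀ * A + (hl C (t • w) - t / t₀ * f₀) * c')
  have h4 : |mid C (t • w) - t / t₀ * μ₀| * c' ≤
      (A / c' * (1 - t / t₀) + t / t₀ * f₀ - hl C (t • w)) * c' := by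
    have e : (A / c' * (1 - t / t₀) + t / t₀ * f₀ - hl C (t • w)) * c' =
        A * (1 - t / t₀) + (t / t₀ * f₀ - hl C (t • w)) * c' := by
      have h5 : A / c' * c' = A := div_mul_cancel₀ _ hcpos.ne'
      linear_combination (1 - t / t₀) * h5
    rw [e]
    linarith
  exact le_of_mul_le_mul_right h4 hcpos

end Pool.Agent.V11188.GM
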