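import Pool.Agent.V11188.GM.C2

/-! The midpoints of the chords of an extremal body in a smooth direction. -/

set_option autoImplicit false
open MeasureTheory Set Module Filter Topology Metric TopologicalSpace
open scoped ENNReal RealInnerProductSpace
open Pool.Agent.Helper481.RH

namespace Pool.Agent.V11188.GM

variable {m : ℕ}

lemma const_aux {Ψ Γ ρ : ℝ → ℝ} {c : ℝ}
    (h : ∀ a, c < a → ∀ b, c < b → |Ψ b - Ψ a| ≤ ρ a * (b - a) + Γ a - Γ b) {a b : ℝ} (ha : c < a)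
    (hab : a < b) : Ψ b = Ψ a := by
  by_contra hne
  have hpos : 0 < |Ψ b - Ψ a| := abs_pos.2 (sub_ne_zero.2 hne)
  obtain ⟨n, hn⟩ := exists_nat_gt ((ρ a - ρ b) * (b - a) / 2 / |Ψ b - Ψ a|)
  have hba : 0 < b - a := by linarith
  have hn1 : 0 < (n : ℝ) + 1 := by positivity
  set N : ℕ := n + 1 with hN
  have hNc : (N : ℝ) = n + 1 := by rw [hN]; push_cast; ring
  have hNpos : (0:ℝ) < N := by rw [hNc]; exact hn1
  set t : ℕ → ℝ := fun k => a + k * ((b - a) / N) with ht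
  have hstep : ∀ k, t (k + 1) - t k = (b - a) / N := by
    intro k
    simp only [ht]
    push_cast
    ring
  have htc : ∀ k, c < t k := by
    intro k
    simp only [ht]
    have : 0 ≤ (k : ℝ) * ((b - a) / N) := by positivity
    linarith
  have hk : ∀ k, |Ψ (t (k + 1)) - Ψ (t k)| ≤ (ρ (t k) - ρ (t (k + 1))) * ((b - a) / N) / 2 := by
    intro k
    have h1 := h (t k) (htc k) (t (k + 1)) (htc (k + 1))
    have h2 := h (t (k + 1)) (htc (k + 1)) (t k) (htc k)
    rw [abs_sub_comm] at h2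
    have h3 := hstep k
    have h4 : t k - t (k + 1) = -((b - a) / N) := by linarith
    rw [h3] at h1
    rw [h4] at h2
    linarith
  have hsum : |Ψ (t N) - Ψ (t 0)| ≤ (ρ (t 0) - ρ (t N)) * ((b - a) / N) / 2 := by
    have h1 : ∀ j : ℕ, |Ψ (t j) - Ψ (t 0)| ≤ (ρ (t 0) - ρ (t j)) * ((b - a) / N) / 2 := by
      intro j
      induction j with
      | zero => simp
      | succ j ih =>
        have h2 := abs_sub_le (Ψ (t (j + 1))) (Ψ (t j)) (Ψ (t 0))
        have h3 := hk j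
        linarith
    exact h1 N
  have ht0 : t 0 = a := by simp [ht]
  have htN : t N = b := by
    simp only [ht]
    rw [mul_div_cancel₀ _ hNpos.ne']
    ring
  rw [ht0, htN] at hsum
  rw [div_lt_iff₀ hpos] at hn
  have h5 : (ρ a - ρ b) * ((b - a) / N) / 2 = (ρ a - ρ b) * (b - a) / 2 / N := by
    field_simp
  rw [h5, le_div_iff₀ hNpos] at hsum
  rw [hNc] at hsum
  nlinarith

lemma const_of_super {Ψ Γ ρ : ℝ → ℝ} {c : ℝ}
    (h : ∀ a, c < a → ∀ b, c < b → |Ψ b - Ψ a| ≤ ρ a * (b - a) + Γ a - Γ b) {a b : ℝ} (ha : c < a)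
    (hb : c < b) : Ψ b = Ψ a := by
  rcases lt_trichotomy a b with h1 | h1 | h1
  · exact const_aux h ha h1
  · rw [h1]
  · exact (const_aux h hb h1).symm

variable {C : Set (ℝ × (Fin m → ℝ))}

theorem mid_ratio {A : ℝ} (hA : 0 < A) (h : Sym C) (hP : PropC C A)
    (hvol : volume C = ENNReal.ofReal A * volume (closedBall (0 : Ed m) 1))
    {w : Fin m → ℝ} (hw : (fib C w).Nonempty) {t t' : ℝ} (h0 : 0 < t) (h1 : t < 1) (h0' : 0 < t')
    (h1' : t' < 1) : mid C (t • w) / t = mid C (t' • w) / t' := by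
  classical
  have hk : ∀ a : ℝ, ∃ ρ : ℝ, 1 < a → ∀ s : ℝ, 0 ≤ s → s ≤ 1 →
      |mid C (s • w) - s / a⁻¹ * mid C (a⁻¹ • w)| ≤
        ρ * (1 - s / a⁻¹) + s / a⁻¹ * hl C (a⁻¹ • w) - hl C (s • w) := by
    intro a
    by_cases ha : 1 < a
    · obtain ⟨ρ, -, hρ⟩ := key hA h hP hvol hw (t₀ := a⁻¹) (by positivity) (inv_lt_one_of_one_lt₀ ha)
      exact ⟨ρ, fun _ => hρ⟩
    · exact ⟨0, fun h => absurd h ha⟩
  choose ρ hρ using hk
  have hmain := const_of_super (Ψ := fun a => a * mid C (a⁻¹ • w)) (Γ := fun a => a * hl C (a⁻¹ • w))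
    (ρ := ρ) (c := 1) (fun a ha b hb => by
      have h2 := hρ a ha b⁻¹ (by positivity) (inv_le_one_of_one_le₀ hb.le)
      have hb0 : 0 < b := by linarith
      have ha0 : 0 < a := by linarith
      have e1 : b * mid C (b⁻¹ • w) - a * mid C (a⁻¹ • w) =
          b * (mid C (b⁻¹ • w) - b⁻¹ / a⁻¹ * mid C (a⁻¹ • w)) := by
        field_simp
      have e2 : ρ a * (b - a) + a * hl C (a⁻¹ • w) - b * hl C (b⁻¹ • w) =
          b * (ρ a * (1 - b⁻¹ / a⁻¹) + b⁻¹ / a⁻¹ * hl C (a⁻¹ • w) - hl C (b⁻¹ • w)) := by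
        field_simp
      rw [e1, e2, abs_mul, abs_of_pos hb0]
      exact mul_le_mul_of_nonneg_left h2 hb0.le)
    (a := t'⁻¹) (b := t⁻¹) ((one_lt_inv₀ h0').2 h1') ((one_lt_inv₀ h0).2 h1)
  simp only [inv_inv] at hmain
  rw [div_eq_inv_mul, div_eq_inv_mul]
  exact hmain

/-- **Symmetry.** An extremal body which is smooth at `(1, 0)`, with the tangent plane `s = 1`
there, is symmetric with respect to `s = 0`. -/
theorem symm_of_smooth {A : ℝ} (hA : 0 < A) (h : Sym C) (hP : PropC C A)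
    (hvol : volume C = ENNReal.ofReal A * volume (closedBall (0 : Ed m) 1))
    (hle : ∀ p ∈ C, p.1 ≤ 1)
    (hsm : ∀ w : Fin m → ℝ, ∀ ε : ℝ, 0 < ε → ∃ δ : ℝ, 0 < δ ∧ ∀ t : ℝ, 0 < t → t < δ →
      (1 - ε * t, t • w) ∈ C) : ∀ p ∈ C, (-p.1, p.2) ∈ C := by
  have hzero : ∀ w : Fin m → ℝ, (fib C w).Nonempty → ∀ t : ℝ, 0 < t → t < 1 →
      mid C (t • w) = 0 := by
    intro w hw t ht0 ht1
    by_contra hne
    set κ := mid C (t • w) / t with hκ
    have hκ0 : 0 < |κ| := abs_pos.2 (div_ne_zero hne ht0.ne')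
    obtain ⟨δ, hδ, hδ'⟩ := hsm w |κ| hκ0
    obtain ⟨δ₂, hδ₂, hδ₂'⟩ := hsm (-w) |κ| hκ0
    set s : ℝ := min (1 / 2) (min (δ / 2) (δ₂ / 2)) with hs
    have hs0 : 0 < s := by positivity
    have hs1 : s < 1 := by
      have := min_le_left (1 / 2 : ℝ) (min (δ / 2) (δ₂ / 2))
      linarith
    have hsδ : s < δ := by
      have := (min_le_right (1 / 2 : ℝ) (min (δ / 2) (δ₂ / 2))).trans (min_le_left _ _)
      linarith
    have hsδ₂ : s < δ₂ := by
      have := (min_le_right (1 / 2 : ℝ) (min (δ / 2) (δ₂ / 2))).trans (min_le_right _ _)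
      linarith
    have e1 := hδ' s hs0 hsδ
    have e2 := hδ₂' s hs0 hsδ₂
    rw [smul_neg] at e2
    have f1 := h.fib_eq (y := s • w) ⟨_, e1⟩
    have f2 := h.fib_eq (y := -(s • w)) ⟨_, e2⟩
    rw [neg_neg] at f2
    have g1 : 1 - |κ| * s ≤ hi C (s • w) := by
      have : 1 - |κ| * s ∈ fib C (s • w) := e1
      rw [f1.1] at this
      exact this.2
    have g2 : 1 - |κ| * s ≤ hi C (-(s • w)) := by
      have : 1 - |κ| * s ∈ fib C (-(s • w)) := e2
      rw [f2.1] at this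
      exact this.2
    have g3 : hi C (s • w) ≤ 1 := by
      have : hi C (s • w) ∈ fib C (s • w) := by rw [f1.1]; exact ⟨f1.2, le_rfl⟩
      exact hle _ this
    have g4 : hi C (-(s • w)) ≤ 1 := by
      have : hi C (-(s • w)) ∈ fib C (-(s • w)) := by rw [f2.1]; exact ⟨f2.2, le_rfl⟩
      exact hle _ this
    have g5 : |mid C (s • w)| ≤ |κ| * s / 2 := by
      unfold mid
      rw [abs_le]
      constructor <;> linarith
    have g6 := mid_ratio hA h hP hvol hw hs0 hs1 ht0 ht1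
    have g7 : mid C (s • w) = κ * s := by
      rw [hκ, ← g6]
      field_simp
    rw [g7, abs_mul, abs_of_pos hs0] at g5
    have : 0 < |κ| * s := by positivity
    linarith
  rintro ⟨s, y⟩ hp
  have hcl : IsClosed {t : ℝ | (-(t * s), t • y) ∈ C} :=
    h.cpt.isClosed.preimage (by fun_prop)
  have hsub : Ioo (0:ℝ) 1 ⊆ {t : ℝ | (-(t * s), t • y) ∈ C} := by
    intro t ht
    have hy : (fib C y).Nonempty := ⟨s, hp⟩
    have h1 : (t * s, t • y) ∈ C := h.smul_mem hp ht.1.le ht.2.le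
    have h2 : (fib C (t • y)).Nonempty := ⟨_, h1⟩
    have h3 := (h.mem_iff h2 _).1 h1
    rw [hzero y hy t ht.1 ht.2, sub_zero] at h3
    rw [mem_ofPred_eq, h.mem_iff h2, hzero y hy t ht.1 ht.2, sub_zero, abs_neg]
    exact h3
  have h1 : (1:ℝ) ∈ closure (Ioo (0:ℝ) 1) := by
    rw [closure_Ioo (by norm_num)]
    exact ⟨by norm_num, le_rfl⟩
  have h2 := (closure_minimal hsub hcl) h1
  rw [mem_ofPred_eq, one_mul, one_smul] at h2
  exact h2

end Pool.Agent.V11188.GM
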