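import Pool.Agent.V11188.GM.C3

/-! Linear images of extremal bodies, reflections in smooth boundary points. -/

set_option autoImplicit false
open MeasureTheory Set Module Filter Topology Metric TopologicalSpace
open scoped ENNReal RealInnerProductSpace
open Pool.Agent.Helper481.RH

namespace Pool.Agent.V11188.GM

variable {m : ℕ}

/-- symmetric compact convex sets of the largest possible volume -/
structure Ext (K : Set (Ed m)) (A : ℝ) : Prop where
  cpt : IsCompact K
  conv : Convex ℝ K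
  neg : ∀ x ∈ K, -x ∈ K
  pos : 0 < A
  prop : PropD K A
  vol : volume K = ENNReal.ofReal A * volume (closedBall (0 : Ed m) 1)

lemma dt_comp (S : Ed m →ₗ[ℝ] Ed m) (v : Fin (m + 1) → Ed m) :
    dt (fun i => S (v i)) = LinearMap.det S * dt v :=
  (EuclideanSpace.basisFun (Fin (m + 1)) ℝ).toBasis.det_comp S v

lemma propD_image {K : Set (Ed m)} {A : ℝ} (h : PropD K A) (S : Ed m ≃ₗ[ℝ] Ed m) :
    PropD (S '' K) (|LinearMap.det (S : Ed m →ₗ[ℝ] Ed m)| * A) := by
  intro v hv
  choose w hw hwv using hv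
  have h1 : v = fun i => (S : Ed m →ₗ[ℝ] Ed m) (w i) := funext fun i => (hwv i).symm
  rw [h1, dt_comp, abs_mul]
  exact mul_le_mul_of_nonneg_left (h w hw) (abs_nonneg _)

lemma Ext.image {K : Set (Ed m)} {A : ℝ} (h : Ext K A) (S : Ed m ≃ₗ[ℝ] Ed m) :
    Ext (S '' K) (|LinearMap.det (S : Ed m →ₗ[ℝ] Ed m)| * A) := by
  refine ⟨?_, ?_, ?_, ?_, propD_image h.prop S, ?_⟩
  · exact h.cpt.image S.toContinuousLinearEquiv.continuous
  · exact h.conv.linear_image S.toLinearMap
  · rintro _ ⟨x, hx, rfl⟩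
    exact ⟨-x, h.neg x hx, by simp⟩
  · exact mul_pos (abs_pos.2 (LinearEquiv.isUnit_det' S).ne_zero) h.pos
  · have h1 := Measure.addHaar_image_linearMap (volume : Measure (Ed m)) (S : Ed m →ₗ[ℝ] Ed m) K
    have h2 : volume (S '' K) = ENNReal.ofReal |LinearMap.det (S : Ed m →ₗ[ℝ] Ed m)| * volume K := h1
    rw [h2, h.vol, ENNReal.ofReal_mul (abs_nonneg _), mul_assoc]

lemma Ext.zero_mem_interior {K : Set (Ed m)} {A : ℝ} (h : Ext K A) : (0 : Ed m) ∈ interior K := by
  have hv0 : volume K ≠ 0 := by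
    rw [h.vol]
    refine mul_ne_zero (by simpa using h.pos) ?_
    exact (measure_closedBall_pos _ _ one_pos).ne'
  obtain ⟨z, hz⟩ := interior_nonempty_of_volume h.conv hv0
  have hz' : -z ∈ interior K := by
    have h2 : (Homeomorph.neg (Ed m)) '' interior K = interior ((Homeomorph.neg (Ed m)) '' K) :=
      (Homeomorph.neg (Ed m)).image_interior K
    have h3 : (Homeomorph.neg (Ed m)) '' K = K := by
      ext p
      constructor
      · rintro ⟨q, hq, rfl⟩; exact h.neg q hq
      · intro hp; exact ⟨-p, h.neg p hp, by simp⟩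
    rw [h3] at h2
    rw [← h2]
    exact ⟨z, hz, rfl⟩
  have h4 := h.conv.interior hz hz' (a := 1 / 2) (b := 1 / 2) (by norm_num) (by norm_num)
    (by norm_num)
  have e : (1 / 2 : ℝ) • z + (1 / 2 : ℝ) • (-z) = 0 := by module
  rwa [e] at h4

/-- coordinates in which `L` is the first coordinate and `p` is the first basis vector -/
noncomputable def skew (L : Ed m →ₗ[ℝ] ℝ) (p : Ed m) (hp : L p = 1)
    (ψ : LinearMap.ker L ≃ₗ[ℝ] (Fin m → ℝ)) : Ed m ≃ₗ[ℝ] ℝ × (Fin m → ℝ) where
  toFun x := (L x, ψ ⟨x - L x • p, by simp [hp]⟩)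
  map_add' x y := by
    refine Prod.ext ?_ ?_
    · simp
    · simp only [Prod.snd_add]
      rw [← map_add]
      congr 1
      ext1
      simp only [Submodule.coe_add, map_add, add_smul]
      abel
  map_smul' c x := by
    refine Prod.ext ?_ ?_
    · simp
    · simp only [RingHom.id_apply, Prod.smul_snd]
      rw [← ψ.map_smul]
      congr 1
      ext1
      simp only [Submodule.coe_smul, map_smul, smul_sub, smul_eq_mul, mul_smul]
  invFun q := q.1 • p + (ψ.symm q.2 : Ed m)
  left_inv x := by simp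
  right_inv q := by
    have h1 : L (ψ.symm q.2 : Ed m) = 0 := (ψ.symm q.2).2
    refine Prod.ext ?_ ?_
    · simp only [map_add, map_smul, hp, h1, smul_eq_mul, mul_one, add_zero]
    · simp only [map_add, map_smul, hp, h1, smul_eq_mul, mul_one, add_zero, add_sub_cancel_left]
      simp

/-- **Smooth boundary points give symmetries.** -/
theorem Ext.reflect {K : Set (Ed m)} {A : ℝ} (h : Ext K A) (L : Ed m →ₗ[ℝ] ℝ) (p : Ed m)
    (hp : L p = 1) (hle : ∀ x ∈ K, L x ≤ 1)
    (hsm : ∀ w : Ed m, L w = 0 → ∀ ε : ℝ, 0 < ε → ∃ δ : ℝ, 0 < δ ∧ ∀ t : ℝ, 0 < t → t < δ →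
      (1 - ε * t) • p + t • w ∈ K) : ∀ x ∈ K, x - (2 * L x) • p ∈ K := by
  have hL0 : L ≠ 0 := by
    intro h0
    rw [h0] at hp
    simp at hp
  have hfin : finrank ℝ (LinearMap.ker L) = m := by
    have h1 := LinearMap.finrank_range_add_finrank_ker L
    have h2 : LinearMap.range L = ⊤ := LinearMap.range_eq_top.2 (LinearMap.surjective hL0)
    rw [h2, finrank_top, finrank_euclideanSpace, Fintype.card_fin] at h1
    simp only [finrank_self] at h1
    omega
  let ψ : LinearMap.ker L ≃ₗ[ℝ] (Fin m → ℝ) := LinearEquiv.ofFinrankEq _ _ (by rw [hfin]; simp)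
  set b := EuclideanSpace.basisFun (Fin (m + 1)) ℝ with hb
  set Φ := skew L p hp ψ with hΦ
  have hΦ1 : ∀ x, (Φ x).1 = L x := fun x => rfl
  have hΦs : ∀ q, Φ.symm q = q.1 • p + (ψ.symm q.2 : Ed m) := fun q => rfl
  let T : Ed m ≃ₗ[ℝ] Ed m := Φ.trans (coord b).symm.toLinearEquiv
  have hE := h.image T
  set A' : ℝ := |LinearMap.det (T : Ed m →ₗ[ℝ] Ed m)| * A with hA'
  set C : Set (ℝ × (Fin m → ℝ)) := Φ '' K with hC
  have hcT : coord b '' (T '' K) = C := by
    rw [hC, image_image]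
    congr 1
  have hSym : Sym C := by
    refine ⟨?_, ?_, ?_⟩
    · rw [← hcT]; exact hE.cpt.image (coord b).continuous
    · exact h.conv.linear_image Φ.toLinearMap
    · rintro _ ⟨x, hx, rfl⟩
      exact ⟨-x, h.neg x hx, by simp⟩
  have hP : PropC C A' := by
    have := (propD_iff b _ _).1 hE.prop
    rwa [hcT] at this
  have hvol : volume C = ENNReal.ofReal A' * volume (closedBall (0 : Ed m) 1) := by
    rw [← hcT, volume_coord_image]
    exact hE.vol
  have key := symm_of_smooth hE.pos hSym hP hvol (by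
    rintro _ ⟨x, hx, rfl⟩
    exact hle x hx) (by
    intro w ε hε
    obtain ⟨δ, hδ, hδ'⟩ := hsm (ψ.symm w) (ψ.symm w).2 ε hε
    refine ⟨δ, hδ, fun t ht0 ht1 => ?_⟩
    refine ⟨_, hδ' t ht0 ht1, ?_⟩
    rw [← Φ.apply_symm_apply (1 - ε * t, t • w), hΦs]
    simp)
  intro x hx
  obtain ⟨y, hy, hye⟩ := key (Φ x) ⟨x, hx, rfl⟩
  have : y = x - (2 * L x) • p := by
    apply Φ.injective
    rw [hye]
    have hx2 : Φ.symm (-(Φ x).1, (Φ x).2) = x - (2 * L x) • p := by
      rw [hΦs]
      have h3 : x = (Φ x).1 • p + (ψ.symm (Φ x).2 : Ed m) := by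
        rw [← hΦs, Φ.symm_apply_apply]
      have h4 : (ψ.symm (Φ x).2 : Ed m) = x - (Φ x).1 • p := by
        rw [eq_sub_iff_add_eq, add_comm]; exact h3.symm
      simp only
      rw [h4, hΦ1]
      module
    rw [← hx2, Φ.apply_symm_apply]
  rw [← this]
  exact hy

end Pool.Agent.V11188.GM
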