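import Pool.Agent.V11188.GM.D

/-! Extremal bodies are ellipsoids. -/

set_option autoImplicit false
open MeasureTheory Set Module Filter Topology Metric TopologicalSpace
open scoped ENNReal RealInnerProductSpace
open Pool.Agent.Helper481.RH

namespace Pool.Agent.V11188.GM

variable {m : ℕ}

/-- reflections in the points of differentiability of the gauge -/
theorem Ext.reflect_gauge {K : Set (Ed m)} {A : ℝ} (h : Ext K A) {z : Ed m} (hz : z ≠ 0)
    (hd : DifferentiableAt ℝ (gauge K) z) :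
    (fderiv ℝ (gauge K) z) ((gauge K z)⁻¹ • z) = 1 ∧
    ∀ x ∈ K, x - (2 * (fderiv ℝ (gauge K) z) x) • ((gauge K z)⁻¹ • z) ∈ K := by
  have h0 := mem_interior_iff_mem_nhds.1 h.zero_mem_interior
  have habs : Absorbent ℝ K := absorbent_nhds_zero h0
  have hgz : 0 < gauge K z := (gauge_pos habs (h.cpt.totallyBounded.isVonNBounded ℝ)).2 hz
  have hmem : ∀ x, gauge K x ≤ 1 ↔ x ∈ K := by
    intro x
    rw [gauge_le_one_iff_mem_closure h.conv h0, h.cpt.isClosed.closure_eq]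
  set L := fderiv ℝ (gauge K) z with hL
  have hline : ∀ x : Ed m, HasDerivAt (fun t : ℝ => gauge K (z + t • x)) (L x) 0 := by
    intro x
    have h1 : HasFDerivAt (gauge K) L (z + (0:ℝ) • x) := by
      rw [zero_smul, add_zero]; exact hd.hasFDerivAt
    have h2 : HasDerivAt (fun t : ℝ => z + t • x) x 0 := by
      have := ((hasDerivAt_id (0:ℝ)).smul_const x).const_add z
      simpa using this
    have h3 := h1.comp_hasDerivAt (0:ℝ) h2
    exact h3
  have hLz : L z = gauge K z := by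
    have h1 := hline z
    have h2 : HasDerivAt (fun t : ℝ => gauge K (z + t • z)) (gauge K z) 0 := by
      have h3 : HasDerivAt (fun t : ℝ => (1 + t) * gauge K z) (gauge K z) 0 := by
        have := ((hasDerivAt_id (0:ℝ)).const_add 1).mul_const (gauge K z)
        simpa using this
      refine h3.congr_of_eventuallyEq ?_
      filter_upwards [Ioi_mem_nhds (show (-1:ℝ) < 0 by norm_num)] with t ht
      have e : z + t • z = (1 + t) • z := by rw [add_smul, one_smul]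
      rw [e, gauge_smul_of_nonneg (by linarith [show (-1:ℝ) < t from ht]), smul_eq_mul]
    exact h1.unique h2
  have hLp : L ((gauge K z)⁻¹ • z) = 1 := by
    rw [map_smul, hLz, smul_eq_mul, inv_mul_cancel₀ hgz.ne']
  refine ⟨hLp, ?_⟩
  have hLle : ∀ x ∈ K, L x ≤ 1 := by
    intro x hx
    have h1 := (hline x)
    have hle1 := (hmem x).2 hx
    -- slope bound
    rw [hasDerivAt_iff_tendsto_slope_zero] at h1
    have h2 := h1.mono_left (nhdsWithin_mono (0:ℝ) (show Ioi (0:ℝ) ⊆ {0}ᶜ from fun t ht => ne_of_gt ht))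
    refine le_of_tendsto h2 ?_
    filter_upwards [self_mem_nhdsWithin] with t ht
    have ht0 : (0:ℝ) < t := ht
    rw [zero_add, zero_smul, add_zero, smul_eq_mul]
    have h3 := gauge_add_le h.conv habs z (t • x)
    rw [gauge_smul_of_nonneg ht0.le, smul_eq_mul] at h3
    have h4 : gauge K (z + t • x) - gauge K z ≤ t * 1 := by nlinarith
    calc t⁻¹ * (gauge K (z + t • x) - gauge K z) ≤ t⁻¹ * (t * 1) :=
          mul_le_mul_of_nonneg_left h4 (by positivity)
      _ = 1 := by field_simp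
  refine h.reflect (L : Ed m →ₗ[ℝ] ℝ) _ hLp hLle ?_
  intro w hw ε hε
  have hw' : L w = 0 := hw
  set u : Ed m := gauge K z • w - ε • z with hu
  have hLu : L u = -(ε * gauge K z) := by
    rw [hu, map_sub, map_smul, map_smul, hw', hLz]
    simp
  have h1 := hline u
  rw [hasDerivAt_iff_tendsto_slope_zero] at h1
  have h2 := h1.mono_left (nhdsWithin_mono (0:ℝ) (show Ioi (0:ℝ) ⊆ {0}ᶜ from fun t ht => ne_of_gt ht))
  have hneg : L u < 0 := by
    rw [hLu]
    have : 0 < ε * gauge K z := by positivity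
    linarith
  have h3 := h2.eventually (gt_mem_nhds hneg)
  obtain ⟨δ, hδ, hδ'⟩ := mem_nhdsGT_iff_exists_Ioo_subset.1 h3
  refine ⟨δ, hδ, fun t ht0 ht1 => ?_⟩
  have h4 : t⁻¹ • (gauge K (z + (0 + t) • u) - gauge K (z + (0:ℝ) • u)) < 0 := hδ' ⟨ht0, ht1⟩
  rw [zero_add, zero_smul, add_zero, smul_eq_mul] at h4
  have h5 : gauge K (z + t • u) < gauge K z := by
    by_contra hcon
    have h6 : 0 ≤ gauge K (z + t • u) - gauge K z := by linarith [not_lt.1 hcon]
    have h7 : 0 ≤ t⁻¹ * (gauge K (z + t • u) - gauge K z) := by positivity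
    linarith
  rw [← hmem]
  have e : (1 - ε * t) • (gauge K z)⁻¹ • z + t • w = (gauge K z)⁻¹ • (z + t • u) := by
    rw [hu, smul_add, smul_smul _ t, smul_sub, smul_smul _ (gauge K z), smul_smul _ ε,
      mul_comm ((gauge K z)⁻¹) t, mul_assoc t, inv_mul_cancel₀ hgz.ne', mul_one]
    module
  rw [e, gauge_smul_of_nonneg (by positivity), smul_eq_mul, inv_mul_le_iff₀ hgz, mul_one]
  exact h5.le

/-- change of variables for the second moments -/
lemma moment_image {K : Set (Ed m)} (hK : IsCompact K) (S : Ed m ≃ₗ[ℝ] Ed m) (a : Ed m) :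
    ∫ y in S '' K, ⟪a, y⟫ ^ 2 = |LinearMap.det (S : Ed m →ₗ[ℝ] Ed m)| * ∫ x in K, ⟪a, S x⟫ ^ 2 := by
  let Sc : Ed m →L[ℝ] Ed m := (S.toContinuousLinearEquiv : Ed m →L[ℝ] Ed m)
  have h1 := integral_image_eq_integral_abs_det_fderiv_smul (volume : Measure (Ed m))
    hK.measurableSet (f := fun x => S x) (f' := fun _ => Sc)
    (fun x _ => Sc.hasFDerivAt.hasFDerivWithinAt) (S.injective.injOn) (fun y => ⟪a, y⟫ ^ 2)
  rw [h1, ← integral_const_mul]
  rfl

/-- the second moments of `K` are those of an isotropic body -/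
def Iso (K : Set (Ed m)) (c : ℝ) : Prop := 0 < c ∧ ∀ a : Ed m, ∫ x in K, ⟪a, x⟫ ^ 2 = c * ‖a‖ ^ 2

/-- a skew reflection which preserves an isotropic body is orthogonal -/
theorem Iso.orthogonal {K : Set (Ed m)} (hK : IsCompact K) {c : ℝ} (h : Iso K c) (L : Ed m →ₗ[ℝ] ℝ)
    (p : Ed m) (hp : L p = 1) (href : ∀ x ∈ K, x - (2 * L x) • p ∈ K) :
    ∀ x ∈ K, x - (2 * ⟪(‖p‖)⁻¹ • p, x⟫) • ((‖p‖)⁻¹ • p) ∈ K := by
  let R₀ : Ed m →ₗ[ℝ] Ed m := LinearMap.id - (2 : ℝ) • (LinearMap.toSpanSingleton ℝ (Ed m) p ∘ₗ L)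
  have hR₀ : ∀ x, R₀ x = x - (2 * L x) • p := by
    intro x
    simp [R₀, mul_smul, LinearMap.toSpanSingleton_apply]
  have hRR : ∀ x, R₀ (R₀ x) = x := by
    intro x
    rw [hR₀, hR₀]
    simp only [map_sub, map_smul, hp, smul_eq_mul, mul_one]
    module
  let R : Ed m ≃ₗ[ℝ] Ed m := LinearEquiv.ofInvolutive R₀ hRR
  have hR : ∀ x, R x = x - (2 * L x) • p := hR₀
  have himg : R '' K = K := by
    apply Subset.antisymm
    · rintro _ ⟨x, hx, rfl⟩
      rw [hR]; exact href x hx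
    · intro x hx
      refine ⟨R x, ?_, hRR x⟩
      rw [hR]; exact href x hx
  have hdet : |LinearMap.det (R : Ed m →ₗ[ℝ] Ed m)| = 1 := by
    have h1 : (R : Ed m →ₗ[ℝ] Ed m) ∘ₗ (R : Ed m →ₗ[ℝ] Ed m) = LinearMap.id :=
      LinearMap.ext hRR
    have h2 := congrArg LinearMap.det h1
    rw [LinearMap.det_comp, LinearMap.det_id] at h2
    have h3 : |LinearMap.det (R : Ed m →ₗ[ℝ] Ed m)| * |LinearMap.det (R : Ed m →ₗ[ℝ] Ed m)| = 1 := by
      rw [← abs_mul, h2, abs_one]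
    nlinarith [abs_nonneg (LinearMap.det (R : Ed m →ₗ[ℝ] Ed m))]
  -- the Riesz vector
  let Lc : Ed m →L[ℝ] ℝ := LinearMap.toContinuousLinearMap L
  set l : Ed m := (InnerProductSpace.toDual ℝ (Ed m)).symm Lc with hl
  have hlx : ∀ x, ⟪l, x⟫ = L x := by
    intro x
    rw [hl, InnerProductSpace.toDual_symm_apply]
    rfl
  have hinv : ‖p - (2 * ‖p‖ ^ 2) • l‖ ^ 2 = ‖p‖ ^ 2 := by
    have h1 := moment_image hK R p
    rw [himg, hdet, one_mul] at h1
    have h2 : ∀ x, ⟪p, R x⟫ = ⟪p - (2 * ‖p‖ ^ 2) • l, x⟫ := by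
      intro x
      rw [hR, inner_sub_right, inner_sub_left, real_inner_smul_right, real_inner_smul_left, hlx,
        real_inner_self_eq_norm_sq]
      ring
    simp only [h2] at h1
    rw [h.2, h.2] at h1
    exact (mul_left_cancel₀ h.1.ne' h1).symm
  have hlp : ⟪l, p⟫ = 1 := by rw [hlx, hp]
  have hp0 : p ≠ 0 := by
    intro h0
    rw [h0, map_zero] at hp
    exact zero_ne_one hp
  have hpn : 0 < ‖p‖ := norm_pos_iff.2 hp0
  have hl2 : ‖p‖ ^ 2 * ‖l‖ ^ 2 = 1 := by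
    rw [norm_sub_sq_real, real_inner_smul_right, real_inner_comm, hlp, norm_smul, mul_pow,
      Real.norm_eq_abs, sq_abs] at hinv
    have h3 : ‖p‖ ^ 2 * (‖p‖ ^ 2 * ‖l‖ ^ 2 - 1) = 0 := by nlinarith
    rcases mul_eq_zero.1 h3 with h4 | h4
    · exact absurd h4 (by positivity)
    · linarith
  have hleq : l = (‖p‖ ^ 2)⁻¹ • p := by
    rw [← sub_eq_zero, ← norm_eq_zero, ← sq_eq_zero_iff, norm_sub_sq_real, real_inner_smul_right,
      hlp, norm_smul, mul_pow, Real.norm_eq_abs, sq_abs]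
    have h5 : ‖l‖ ^ 2 = (‖p‖ ^ 2)⁻¹ := eq_inv_of_mul_eq_one_right hl2
    rw [h5]
    field_simp
    ring
  intro x hx
  have h6 := href x hx
  have h7 : (2 * L x) • p = (2 * ⟪(‖p‖)⁻¹ • p, x⟫) • ((‖p‖)⁻¹ • p) := by
    rw [← hlx, hleq, real_inner_smul_left, real_inner_smul_left, smul_smul]
    congr 1
    field_simp
  rw [← h7]
  exact h6

/-- an isotropic extremal body is a ball -/
theorem Ext.eq_ball {K : Set (Ed m)} {A c : ℝ} (h : Ext K A) (hi : Iso K c) :
    ∃ ρ : ℝ, 0 < ρ ∧ K = closedBall 0 ρ := by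
  have h0 := mem_interior_iff_mem_nhds.1 h.zero_mem_interior
  have hne : K.Nonempty := ⟨0, interior_subset h.zero_mem_interior⟩
  have habs : Absorbent ℝ K := absorbent_nhds_zero h0
  obtain ⟨Cst, hLip⟩ := h.conv.lipschitz_gauge h0
  have hae := hLip.ae_differentiableAt (μ := (volume : Measure (Ed m)))
  have hdense : Dense {z : Ed m | DifferentiableAt ℝ (gauge K) z} := Measure.dense_of_ae hae
  have hall : ∀ z : Ed m, z ≠ 0 → ∀ x ∈ K,
      x - (2 * ⟪(‖z‖)⁻¹ • z, x⟫) • ((‖z‖)⁻¹ • z) ∈ K := by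
    intro z hz x hx
    -- approximate `z` by points of differentiability
    have hcl : z ∈ closure {z : Ed m | DifferentiableAt ℝ (gauge K) z} := hdense z
    obtain ⟨u, hu, hul⟩ := mem_closure_iff_seq_limit.1 hcl
    have hu0 : ∀ᶠ n in atTop, u n ≠ 0 := hul.eventually_ne hz
    have hlim : Tendsto (fun n => x - (2 * ⟪(‖u n‖)⁻¹ • u n, x⟫) • ((‖u n‖)⁻¹ • u n)) atTop
        (𝓝 (x - (2 * ⟪(‖z‖)⁻¹ • z, x⟫) • ((‖z‖)⁻¹ • z))) := by
      have h1 : Tendsto (fun n => (‖u n‖)⁻¹ • u n) atTop (𝓝 ((‖z‖)⁻¹ • z)) :=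
        (hul.norm.inv₀ (norm_ne_zero_iff.2 hz)).smul hul
      have h2 : Continuous fun v : Ed m => x - (2 * ⟪v, x⟫) • v := by fun_prop
      exact (h2.tendsto _).comp h1
    refine h.cpt.isClosed.mem_of_tendsto hlim ?_
    filter_upwards [hu0] with n hn
    obtain ⟨h1, h2⟩ := h.reflect_gauge hn (hu n)
    have h3 := hi.orthogonal h.cpt ((fderiv ℝ (gauge K) (u n)) : Ed m →ₗ[ℝ] ℝ)
      ((gauge K (u n))⁻¹ • u n) h1 h2 x hx
    have hg : 0 < gauge K (u n) := (gauge_pos habs (h.cpt.totallyBounded.isVonNBounded ℝ)).2 hn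
    have e : (‖(gauge K (u n))⁻¹ • u n‖)⁻¹ • ((gauge K (u n))⁻¹ • u n) = (‖u n‖)⁻¹ • u n := by
      rw [norm_smul, Real.norm_eq_abs, abs_of_pos (by positivity), smul_smul]
      congr 1
      field_simp
    rw [e] at h3
    exact h3
  obtain ⟨ρ, hρ, hKρ⟩ := Pool.Agent.Helper481.RH.eq_ball h.cpt h.conv hne (fun v hv x hx => by
    have hv0 : v ≠ 0 := by
      intro h1; rw [h1, norm_zero] at hv; exact zero_ne_one hv
    have := hall v hv0 x hx
    rw [hv, inv_one, one_smul] at this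
    exact this)
  refine ⟨ρ, lt_of_le_of_ne hρ ?_, hKρ⟩
  intro h1
  have h2 := h.vol
  rw [hKρ, ← h1, closedBall_zero] at h2
  have h3 : volume ({0} : Set (Ed m)) = 0 := measure_singleton _
  rw [h3] at h2
  refine (mul_ne_zero ?_ ?_) h2.symm
  · simpa using h.pos
  · exact (measure_closedBall_pos _ _ one_pos).ne'

end Pool.Agent.V11188.GM
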