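import Pool.Agent.V11188.GM.F

/-! The isotropic position and the conclusion. -/

set_option autoImplicit false
open MeasureTheory Set Module Filter Topology Metric TopologicalSpace
open scoped ENNReal RealInnerProductSpace
open Pool.Agent.Helper481.RH

namespace Pool.Agent.V11188.GM

variable {m : ℕ}

/-- the form of the second moments -/
noncomputable def mf {K : Set (Ed m)} (hK : IsCompact K) : LinearMap.BilinForm ℝ (Ed m) :=
  LinearMap.mk₂ ℝ (fun u v => ∫ x in K, ⟪u, x⟫ * ⟪v, x⟫)
    (fun u u' v => by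
      have hi : ∀ w, IntegrableOn (fun x => ⟪w, x⟫ * ⟪v, x⟫) K := fun w =>
        (Continuous.continuousOn (by fun_prop)).integrableOn_compact hK
      rw [← integral_add (hi u) (hi u')]
      refine integral_congr_ae (Eventually.of_forall fun x => ?_)
      simp only [inner_add_left]; ring)
    (fun c u v => by
      rw [smul_eq_mul, ← integral_const_mul]
      refine integral_congr_ae (Eventually.of_forall fun x => ?_)
      simp only [real_inner_smul_left]; ring)
    (fun u v v' => by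
      have hi : ∀ w, IntegrableOn (fun x => ⟪u, x⟫ * ⟪w, x⟫) K := fun w =>
        (Continuous.continuousOn (by fun_prop)).integrableOn_compact hK
      rw [← integral_add (hi v) (hi v')]
      refine integral_congr_ae (Eventually.of_forall fun x => ?_)
      simp only [inner_add_left]; ring)
    (fun c u v => by
      rw [smul_eq_mul, ← integral_const_mul]
      refine integral_congr_ae (Eventually.of_forall fun x => ?_)
      simp only [real_inner_smul_left]; ring)

lemma mf_apply {K : Set (Ed m)} (hK : IsCompact K) (u v : Ed m) :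
    mf hK u v = ∫ x in K, ⟪u, x⟫ * ⟪v, x⟫ := rfl

lemma mf_pos {K : Set (Ed m)} (hK : IsCompact K) (hint : (interior K).Nonempty) {u : Ed m}
    (hu : u ≠ 0) : 0 < mf hK u u := by
  rw [mf_apply]
  have hcont : Continuous fun x : Ed m => ⟪u, x⟫ * ⟪u, x⟫ := by fun_prop
  have hi : IntegrableOn (fun x => ⟪u, x⟫ * ⟪u, x⟫) K := hcont.continuousOn.integrableOn_compact hK
  rw [integral_pos_iff_support_of_nonneg (fun x => mul_self_nonneg _) hi]
  have hopen : IsOpen (Function.support fun x : Ed m => ⟪u, x⟫ * ⟪u, x⟫) := hcont.isOpen_support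
  rw [Measure.restrict_apply hopen.measurableSet]
  -- a point of the interior outside the hyperplane
  obtain ⟨z, hz⟩ := hint
  obtain ⟨r, hr, hrs⟩ := Metric.mem_nhds_iff.1 (mem_interior_iff_mem_nhds.1 hz)
  have hex : ∃ y ∈ ball z r, ⟪u, y⟫ ≠ 0 := by
    by_cases h0 : ⟪u, z⟫ = 0
    · have hun : 0 < ‖u‖ := norm_pos_iff.2 hu
      refine ⟨z + (r / (2 * ‖u‖)) • u, ?_, ?_⟩
      · rw [mem_ball, dist_eq_norm, add_sub_cancel_left, norm_smul, Real.norm_eq_abs,
          abs_of_pos (by positivity)]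
        have : r / (2 * ‖u‖) * ‖u‖ = r / 2 := by field_simp
        rw [this]; linarith
      · rw [inner_add_right, h0, zero_add, real_inner_smul_right, real_inner_self_eq_norm_sq]
        positivity
    · exact ⟨z, mem_ball_self hr, h0⟩
  obtain ⟨y, hy, hy0⟩ := hex
  have hsub : ball z r ∩ Function.support (fun x : Ed m => ⟪u, x⟫ * ⟪u, x⟫) ⊆
      Function.support (fun x : Ed m => ⟪u, x⟫ * ⟪u, x⟫) ∩ K := fun x hx => ⟨hx.2, hrs hx.1⟩
  refine lt_of_lt_of_le ?_ (measure_mono hsub)
  exact (isOpen_ball.inter hopen).measure_pos volume ⟨y, hy, mul_ne_zero hy0 hy0⟩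

/-- **Isotropic position.** -/
theorem exists_iso {K : Set (Ed m)} (hK : IsCompact K) (hint : (interior K).Nonempty) :
    ∃ (S : Ed m ≃ₗ[ℝ] Ed m) (c : ℝ), Iso (S '' K) c := by
  have hsym : LinearMap.IsSymm (mf hK) := by
    refine ⟨fun u v => ?_⟩
    rw [RingHom.id_apply, mf_apply, mf_apply]
    refine integral_congr_ae (Eventually.of_forall fun x => ?_)
    exact mul_comm _ _
  obtain ⟨v₀, hv₀⟩ := LinearMap.BilinForm.exists_orthogonal_basis hsym
  have hfr : finrank ℝ (Ed m) = m + 1 := by simp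
  let v : Basis (Fin (m + 1)) ℝ (Ed m) := v₀.reindex (finCongr hfr)
  have hv : ∀ i j, i ≠ j → mf hK (v i) (v j) = 0 := by
    intro i j hij
    have h1 := LinearMap.isOrthoᵢ_def.1 hv₀ ((finCongr hfr).symm i) ((finCongr hfr).symm j)
      (fun h => hij ((finCongr hfr).symm.injective h))
    simpa [v] using h1
  have hpos : ∀ i, 0 < mf hK (v i) (v i) := fun i => mf_pos hK hint (v.ne_zero i)
  set s : Fin (m + 1) → ℝ := fun i => (Real.sqrt (mf hK (v i) (v i)))⁻¹ with hs
  have hs0 : ∀ i, 0 < s i := fun i => inv_pos.2 (Real.sqrt_pos.2 (hpos i))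
  set u : Fin (m + 1) → Ed m := fun i => s i • v i with hu
  have huu : ∀ i j, mf hK (u i) (u j) = if i = j then 1 else 0 := by
    intro i j
    simp only [hu, map_smul, LinearMap.smul_apply, smul_eq_mul]
    split_ifs with hij
    · subst hij
      simp only [hs]
      have h1 := Real.mul_self_sqrt (hpos i).le
      have h2 : Real.sqrt (mf hK (v i) (v i)) ≠ 0 := (Real.sqrt_pos.2 (hpos i)).ne'
      field_simp
      nlinarith
    · rw [hv i j hij]; ring
  -- the linear map
  set e := EuclideanSpace.basisFun (Fin (m + 1)) ℝ with he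
  let S₀ : Ed m →ₗ[ℝ] Ed m :=
    ∑ i, LinearMap.toSpanSingleton ℝ (Ed m) (e i) ∘ₗ (innerₛₗ ℝ (u i))
  have hS₀ : ∀ x, S₀ x = ∑ i, ⟪u i, x⟫ • e i := by
    intro x
    simp [S₀, LinearMap.sum_apply, LinearMap.toSpanSingleton_apply]
  have hinn : ∀ (a x : Ed m), ⟪a, S₀ x⟫ = ⟪∑ i, ⟪a, e i⟫ • u i, x⟫ := by
    intro a x
    rw [hS₀, inner_sum, sum_inner]
    refine Finset.sum_congr rfl fun i _ => ?_
    rw [real_inner_smul_right, real_inner_smul_left (u i) x, mul_comm]
  have hinj : Function.Injective S₀ := by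
    rw [← LinearMap.ker_eq_bot, LinearMap.ker_eq_bot']
    intro x hx
    have h1 : ∀ i, ⟪v i, x⟫ = 0 := by
      intro i
      have h2 : ⟪u i, x⟫ = 0 := by
        have h3 : ⟪e i, S₀ x⟫ = ⟪u i, x⟫ := by
          rw [hinn]
          congr 1
          rw [Finset.sum_eq_single i]
          · rw [real_inner_self_eq_norm_sq, e.orthonormal.1 i]; simp
          · intro j _ hj
            rw [e.orthonormal.2 (Ne.symm hj), zero_smul]
          · intro h4; exact absurd (Finset.mem_univ i) h4
        rw [← h3, hx, inner_zero_right]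
      rw [hu] at h2
      simp only [real_inner_smul_left] at h2
      exact (mul_eq_zero.1 h2).resolve_left (hs0 i).ne'
    have h5 : ∀ y : Ed m, ⟪y, x⟫ = 0 := by
      intro y
      rw [← v.sum_repr y, sum_inner]
      refine Finset.sum_eq_zero fun i _ => ?_
      rw [real_inner_smul_left, h1, mul_zero]
    exact inner_self_eq_zero.1 (h5 x)
  let S : Ed m ≃ₗ[ℝ] Ed m := LinearEquiv.ofInjectiveEndo S₀ hinj
  have hS : ∀ x, S x = S₀ x := fun x => rfl
  refine ⟨S, |LinearMap.det (S : Ed m →ₗ[ℝ] Ed m)|,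
    abs_pos.2 (LinearEquiv.isUnit_det' S).ne_zero, fun a => ?_⟩
  rw [moment_image hK S a]
  congr 1
  set a' : Ed m := ∑ i, ⟪a, e i⟫ • u i with ha'
  have h1 : ∫ x in K, ⟪a, S x⟫ ^ 2 = mf hK a' a' := by
    rw [mf_apply]
    refine integral_congr_ae (Eventually.of_forall fun x => ?_)
    simp only [hS, hinn, ← ha']
    ring
  rw [h1, ha', map_sum]
  have h2 : ∀ i, (mf hK (∑ j, ⟪a, e j⟫ • u j)) (⟪a, e i⟫ • u i) = ⟪a, e i⟫ ^ 2 := by
    intro i
    rw [map_sum, LinearMap.sum_apply, Finset.sum_eq_single i]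
    · simp only [map_smul, LinearMap.smul_apply, smul_eq_mul, huu, if_true]
      ring
    · intro j _ hj
      simp only [map_smul, LinearMap.smul_apply, smul_eq_mul, huu, if_neg hj]
      ring
    · intro h4; exact absurd (Finset.mem_univ i) h4
  rw [Finset.sum_congr rfl fun i _ => h2 i]
  have h3 := e.sum_sq_norm_inner_left a
  rw [← h3]
  refine Finset.sum_congr rfl fun i _ => ?_
  rw [Real.norm_eq_abs, sq_abs]

/-- **Extremal bodies are ellipsoids.** -/
theorem Ext.ellipsoid {K : Set (Ed m)} {A : ℝ} (h : Ext K A) :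
    ∃ T : Ed m ≃ₗ[ℝ] Ed m, K = T '' closedBall 0 1 := by
  obtain ⟨S, c, hS⟩ := exists_iso h.cpt ⟨0, h.zero_mem_interior⟩
  obtain ⟨ρ, hρ, hK⟩ := (h.image S).eq_ball hS
  let D : Ed m ≃ₗ[ℝ] Ed m := LinearEquiv.smulOfNeZero ℝ (Ed m) ρ hρ.ne'
  refine ⟨D.trans S.symm, ?_⟩
  have h1 : (D.trans S.symm : Ed m → Ed m) = S.symm ∘ D := rfl
  have h2 : (D : Ed m → Ed m) = fun x => ρ • x := rfl
  have h3 : (fun x : Ed m => ρ • x) '' closedBall 0 1 = closedBall 0 ρ := by
    have := smul_unitClosedBall (E := Ed m) ρ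
    rw [Real.norm_eq_abs, abs_of_pos hρ] at this
    exact this
  rw [h1, image_comp, h2, h3, ← hK, ← image_comp]
  simp

end Pool.Agent.V11188.GM
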